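import Mathlib

section

open Set Filter Topology

namespace Pool.Agent.MP_353077_gt

/-- ultrafilter form of the Lindelof Sigma property of a subset -/
def UL {E : Type} [TopologicalSpace E] (Z : Set E) : Prop :=
  ∃ (ι : Type) (_ : Countable ι) (N : ι → Set E), ∀ g ∈ Z, ∀ U : Ultrafilter E,
    (∀ i, g ∈ N i → N i ∈ U) → ∃ z ∈ Z, (U : Filter E) ≤ 𝓝 z

variable {E E' : Type} [TopologicalSpace E] [TopologicalSpace E']

theorem UL.norm {Z : Set E} (h : UL Z) :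
    ∃ (ι : Type) (_ : Countable ι) (N : ι → Set E), (∀ i, N i ⊆ Z) ∧ (∃ i, N i = Z) ∧
      (∀ i j, ∃ k, N k = N i ∩ N j) ∧ ∀ g ∈ Z, ∀ U : Ultrafilter E,
      (∀ i, g ∈ N i → N i ∈ U) → ∃ z ∈ Z, (U : Filter E) ≤ 𝓝 z := by
  classical
  obtain ⟨ι, hι, N, hN⟩ := h
  refine ⟨Finset ι, inferInstance, fun s => Z ∩ ⋂ i ∈ s, N i, fun s => inter_subset_left,
    ⟨∅, by simp⟩, fun s t => ⟨s ∪ t, ?_⟩, fun g hg U hU => hN g hg U fun i hi => ?_⟩
  · ext x
    simp only [Finset.mem_union, mem_inter_iff, mem_iInter]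
    constructor
    · rintro ⟨h1, h2⟩
      exact ⟨⟨h1, fun i hi => h2 i (Or.inl hi)⟩, h1, fun i hi => h2 i (Or.inr hi)⟩
    · rintro ⟨⟨h1, h2⟩, -, h3⟩
      exact ⟨h1, fun i hi => hi.elim (h2 i) (h3 i)⟩
  · have := hU {i} ⟨hg, by simpa using hi⟩
    exact mem_of_superset this (fun x hx => by simpa using hx.2)

theorem UL.lift {A : Set E} (h : UL A) :
    ∃ (ι : Type) (_ : Countable ι) (M : ι → Set E), ∀ (F : Type) (R : E → F → Prop),
      ∀ a ∈ A, ∀ U : Ultrafilter F, (∀ i, a ∈ M i → {e | ∃ b ∈ A ∩ M i, R b e} ∈ U) →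
      ∃ W : Ultrafilter (E × F), (∀ᶠ p in (W : Filter (E × F)), p.1 ∈ A ∧ R p.1 p.2) ∧
        Filter.map Prod.snd (W : Filter (E × F)) = U ∧
        ∃ b ∈ A, Filter.map Prod.fst (W : Filter (E × F)) ≤ 𝓝 b := by
  obtain ⟨ι, hι, N, hsub, ⟨i0, hi0⟩, hint, hN⟩ := h.norm
  refine ⟨ι, hι, N, fun F R a ha U hU => ?_⟩
  let T : ι → Set (E × F) := fun i => {p | p.1 ∈ A ∩ N i ∧ R p.1 p.2}
  let G : {i // a ∈ N i} → Filter (E × F) := fun i => 𝓟 (T i.1) ⊓ comap Prod.snd (U : Filter F)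
  haveI : Nonempty {i // a ∈ N i} := ⟨⟨i0, hi0 ▸ ha⟩⟩
  have hdir : Directed (· ≥ ·) G := by
    intro i j
    obtain ⟨k, hk⟩ := hint i.1 j.1
    refine ⟨⟨k, hk ▸ ⟨i.2, j.2⟩⟩, ?_, ?_⟩
    · refine inf_le_inf_right _ (principal_mono.2 ?_)
      intro p hp
      exact ⟨⟨hp.1.1, (hk ▸ hp.1.2 : p.1 ∈ N i.1 ∩ N j.1).1⟩, hp.2⟩
    · refine inf_le_inf_right _ (principal_mono.2 ?_)
      intro p hp
      exact ⟨⟨hp.1.1, (hk ▸ hp.1.2 : p.1 ∈ N i.1 ∩ N j.1).2⟩, hp.2⟩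
  have hne : ∀ i, (G i).NeBot := by
    intro i
    rw [Filter.neBot_inf_comap_iff_map, map_principal]
    have h1 := hU i.1 i.2
    have h2 : Prod.snd '' T i.1 ∈ (U : Filter F) := by
      refine mem_of_superset h1 ?_
      rintro e ⟨b, hb, hR⟩
      exact ⟨(b, e), ⟨hb, hR⟩, rfl⟩
    rw [inf_comm, inf_eq_left.2 (le_principal_iff.2 h2)]
    infer_instance
  haveI : (iInf G).NeBot := iInf_neBot_of_directed' hdir hne
  obtain ⟨W, hW⟩ := Ultrafilter.exists_le (iInf G)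
  have hWT : ∀ i, a ∈ N i → T i ∈ (W : Filter (E × F)) := fun i hi =>
    le_principal_iff.1 ((hW.trans (iInf_le G ⟨i, hi⟩)).trans inf_le_left)
  have hW2 : (W : Filter (E × F)) ≤ comap Prod.snd (U : Filter F) :=
    (hW.trans (iInf_le G ⟨i0, hi0 ▸ ha⟩)).trans inf_le_right
  refine ⟨W, ?_, ?_, ?_⟩
  · exact mem_of_superset (hWT i0 (hi0 ▸ ha)) (fun p hp => ⟨hp.1.1, hp.2⟩)
  · exact U.unique (map_le_iff_le_comap.2 hW2)
  · obtain ⟨b, hb, hlim⟩ := hN a ha (W.map Prod.fst) (fun i hi => by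
      have := hWT i hi
      have h2 : Prod.fst ⁻¹' N i ∈ (W : Filter (E × F)) :=
        mem_of_superset this (fun p hp => hp.1.2)
      exact h2)
    exact ⟨b, hb, hlim⟩

theorem UL.image {A : Set E} (h : UL A) {f : E → E'} (hf : Continuous f) : UL (f '' A) := by
  obtain ⟨ι, hι, M, hM⟩ := h.lift
  refine ⟨ι, hι, fun i => {e | ∃ b ∈ A ∩ M i, f b = e}, ?_⟩
  rintro _ ⟨a, ha, rfl⟩ U hU
  obtain ⟨W, h1, h2, b, hb, h3⟩ := hM E' (fun b e => f b = e) a ha U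
    (fun i hi => hU i ⟨a, ⟨ha, hi⟩, rfl⟩)
  refine ⟨f b, ⟨b, hb, rfl⟩, ?_⟩
  rw [← h2]
  have h4 : Tendsto (fun p : E × E' => f p.1) W (𝓝 (f b)) := (hf.tendsto b).comp h3
  exact h4.congr' (h1.mono fun p hp => hp.2)

theorem UL.iUnion {ι : Type} [Countable ι] {A : ι → Set E} (h : ∀ i, UL (A i)) :
    UL (⋃ i, A i) := by
  choose κ hκ N hN using h
  refine ⟨Σ i, κ i, inferInstance, fun p => N p.1 p.2, fun g hg U hU => ?_⟩
  obtain ⟨i, hi⟩ := mem_iUnion.1 hg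
  obtain ⟨z, hz, h⟩ := hN i g hi U (fun j hj => hU ⟨i, j⟩ hj)
  exact ⟨z, mem_iUnion.2 ⟨i, hz⟩, h⟩

theorem UL.union {A B : Set E} (hA : UL A) (hB : UL B) : UL (A ∪ B) := by
  rw [union_eq_iUnion]
  refine UL.iUnion fun b => ?_
  cases b <;> simpa

theorem UL.empty : UL (∅ : Set E) :=
  ⟨Unit, inferInstance, fun _ => ∅, fun g hg => hg.elim⟩

theorem UL.prod {A : Set E} {B : Set E'} (hA : UL A) (hB : UL B) : UL (A ×ˢ B) := by
  obtain ⟨ι, hι, N, hN⟩ := hA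
  obtain ⟨κ, hκ, M, hM⟩ := hB
  refine ⟨ι ⊕ κ, inferInstance, Sum.elim (fun i => Prod.fst ⁻¹' N i) (fun j => Prod.snd ⁻¹' M j),
    fun g hg U hU => ?_⟩
  obtain ⟨a, ha, h1⟩ := hN g.1 hg.1 (U.map Prod.fst) (fun i hi => hU (Sum.inl i) hi)
  obtain ⟨b, hb, h2⟩ := hM g.2 hg.2 (U.map Prod.snd) (fun i hi => hU (Sum.inr i) hi)
  refine ⟨(a, b), ⟨ha, hb⟩, ?_⟩
  rw [nhds_prod_eq]
  exact Filter.le_prod.2 ⟨h1, h2⟩

theorem UL.real : UL (univ : Set ℝ) := by
  refine ⟨ℕ, inferInstance, fun n => Icc (-(n : ℝ)) n, fun g _ U hU => ?_⟩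
  obtain ⟨n, hn⟩ := exists_nat_ge |g|
  obtain ⟨z, -, hz⟩ := (isCompact_Icc (a := -(n : ℝ)) (b := n)).ultrafilter_le_nhds U
    (le_principal_iff.2 (hU n (abs_le.1 hn)))
  exact ⟨z, trivial, hz⟩

/-- uniform limits -/
theorem UL.unif {P : Type} {A : Set (P → ℝ)} (h : UL A) :
    UL {g : P → ℝ | ∀ n : ℕ, ∃ a ∈ A, ∀ p, |a p - g p| ≤ 1 / ((n : ℝ) + 1)} := by
  obtain ⟨ι, hι, M, hM⟩ := h.lift
  refine ⟨ℕ × ι, inferInstance,
    fun q => {e | ∃ b ∈ A ∩ M q.2, ∀ p, |b p - e p| ≤ 1 / ((q.1 : ℝ) + 1)}, fun g hg U hU => ?_⟩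
  have key : ∀ n : ℕ, ∃ b ∈ A, ∀ p, ∀ ε > 0,
      ∀ᶠ e in (U : Filter (P → ℝ)), |b p - e p| ≤ 1 / ((n : ℝ) + 1) + ε := by
    intro n
    obtain ⟨a, ha, hag⟩ := hg n
    obtain ⟨W, h1, h2, b, hb, h3⟩ := hM (P → ℝ)
      (fun b e => ∀ p, |b p - e p| ≤ 1 / ((n : ℝ) + 1)) a ha U
      (fun i hi => hU (n, i) ⟨a, ⟨ha, hi⟩, hag⟩)
    refine ⟨b, hb, fun p ε hε => ?_⟩
    rw [← h2, eventually_map]
    have h4 : Tendsto (fun q : (P → ℝ) × (P → ℝ) => q.1 p) W (𝓝 (b p)) :=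
      ((continuous_apply p).tendsto b).comp h3
    have h5 := (Metric.tendsto_nhds.1 h4) ε hε
    filter_upwards [h1, h5] with q hq1 hq2
    have h6 := hq1.2 p
    rw [Real.dist_eq] at hq2
    have h7 : |b p - q.2 p| ≤ |q.1 p - q.2 p| + |q.1 p - b p| := by
      have := abs_sub_le (b p) (q.1 p) (q.2 p)
      rw [abs_sub_comm (b p) (q.1 p)] at this
      linarith
    linarith
  choose b hb hbU using key
  have hlim : ∀ p, ∃ r : ℝ, Tendsto (fun e : P → ℝ => e p) U (𝓝 r) := by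
    intro p
    obtain ⟨r, -, hr⟩ := (isCompact_closedBall (b 0 p) 2).ultrafilter_le_nhds
      (U.map fun e : P → ℝ => e p) (le_principal_iff.2 (by
        have := hbU 0 p 1 one_pos
        show (fun e : P → ℝ => e p) ⁻¹' (Metric.closedBall (b 0 p) 2) ∈ (U : Filter (P → ℝ))
        refine mem_of_superset this (fun e he => ?_)
        simp only [mem_setOf_eq, mem_preimage, Metric.mem_closedBall, Real.dist_eq] at he ⊢
        rw [abs_sub_comm]
        norm_num at he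
        linarith))
    exact ⟨r, hr⟩
  choose z hz using hlim
  refine ⟨z, fun n => ⟨b n, hb n, fun p => ?_⟩, ?_⟩
  · refine le_of_forall_pos_le_add fun ε hε => ?_
    have h1 : Tendsto (fun e : P → ℝ => |b n p - e p|) U (𝓝 |b n p - z p|) :=
      (tendsto_const_nhds.sub (hz p)).abs
    exact le_of_tendsto h1 (hbU n p ε hε)
  · exact tendsto_pi_nhds.2 hz

theorem UL.of_network {Y : Type} [TopologicalSpace Y] (N : ℕ → Set Y)
    (h : ∀ g : Y, ∃ C : Set Y, IsCompact C ∧ g ∈ C ∧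
      ∀ U : Set Y, IsOpen U → C ⊆ U → ∃ n : ℕ, C ⊆ N n ∧ N n ⊆ U) : UL (univ : Set Y) := by
  refine ⟨ℕ, inferInstance, N, fun g _ U hU => ?_⟩
  obtain ⟨C, hC, hg, hN⟩ := h g
  have h1 : (U : Filter Y) ≤ 𝓝ˢ C := by
    intro V hV
    obtain ⟨V', hV'o, hCV', hV'V⟩ := mem_nhdsSet.1 hV |>.imp fun V' h => (⟨h.2.1, h.2.2, h.1⟩ :
      IsOpen V' ∧ C ⊆ V' ∧ V' ⊆ V)
    obtain ⟨n, hn1, hn2⟩ := hN V' hV'o hCV'
    exact mem_of_superset (hU n (hn1 hg)) (hn2.trans hV'V)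
  by_contra hcon
  have h2 : Disjoint (U : Filter Y) (𝓝ˢ C) := by
    rw [hC.disjoint_nhdsSet_right]
    intro x hx
    rw [Ultrafilter.disjoint_iff_not_le]
    exact fun hle => hcon ⟨x, trivial, hle⟩
  exact (Ultrafilter.disjoint_iff_not_le.1 h2) h1

theorem UL.to_network {Y : Type} [TopologicalSpace Y] [RegularSpace Y] (h : UL (univ : Set Y)) :
    ∃ N : ℕ → Set Y, ∀ g : Y, ∃ C : Set Y, IsCompact C ∧ g ∈ C ∧
      ∀ U : Set Y, IsOpen U → C ⊆ U → ∃ n : ℕ, C ⊆ N n ∧ N n ⊆ U := by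
  obtain ⟨ι, hι, N, -, ⟨i0, hi0⟩, hint, hN⟩ := h.norm
  haveI : Nonempty ι := ⟨i0⟩
  obtain ⟨e, he⟩ := exists_surjective_nat ι
  refine ⟨fun n => closure (N (e n)), fun g => ?_⟩
  let G : {i // g ∈ N i} → Filter Y := fun i => 𝓟 (N i.1)
  haveI : Nonempty {i // g ∈ N i} := ⟨⟨i0, hi0 ▸ mem_univ g⟩⟩
  let C : Set Y := ⋂ i : {i // g ∈ N i}, closure (N i.1)
  have hCc : IsClosed C := isClosed_iInter fun i => isClosed_closure
  -- any filter compatible with all the sets has an ultrafilter converging to a point of C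
  have key : ∀ F : Filter Y, (∀ i, g ∈ N i → (F ⊓ 𝓟 (N i)).NeBot) →
      ∃ U : Ultrafilter Y, (U : Filter Y) ≤ F ∧ ∃ z ∈ C, (U : Filter Y) ≤ 𝓝 z := by
    intro F hF
    let G : {i // g ∈ N i} → Filter Y := fun i => F ⊓ 𝓟 (N i.1)
    have hdir : Directed (· ≥ ·) G := by
      intro i j
      obtain ⟨k, hk⟩ := hint i.1 j.1
      refine ⟨⟨k, hk ▸ ⟨i.2, j.2⟩⟩, ?_, ?_⟩
      · exact inf_le_inf_left _ (principal_mono.2 (by simp [hk]))
      · exact inf_le_inf_left _ (principal_mono.2 (by simp [hk]))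
    haveI : (iInf G).NeBot := iInf_neBot_of_directed' hdir (fun i => hF i.1 i.2)
    obtain ⟨U, hU⟩ := Ultrafilter.exists_le (iInf G)
    have hUN : ∀ i, g ∈ N i → N i ∈ U := fun i hi =>
      le_principal_iff.1 ((hU.trans (iInf_le G ⟨i, hi⟩)).trans inf_le_right)
    obtain ⟨z, -, hz⟩ := hN g trivial U hUN
    refine ⟨U, (hU.trans (iInf_le G ⟨i0, hi0 ▸ mem_univ g⟩)).trans inf_le_left, z, ?_, hz⟩
    refine mem_iInter.2 fun i => ?_
    exact mem_closure_iff_ultrafilter.2 ⟨U, hUN i.1 i.2, hz⟩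
  have hC : IsCompact C := by
    rw [isCompact_iff_ultrafilter_le_nhds]
    intro V hV
    let F : Filter Y :=
      { sets := {t | ∃ O, IsOpen O ∧ O ∈ (V : Filter Y) ∧ O ⊆ t}
        univ_sets := ⟨univ, isOpen_univ, univ_mem, subset_rfl⟩
        sets_of_superset := fun ⟨O, h1, h2, h3⟩ hst => ⟨O, h1, h2, h3.trans hst⟩
        inter_sets := fun ⟨O, h1, h2, h3⟩ ⟨O', h1', h2', h3'⟩ =>
          ⟨O ∩ O', h1.inter h1', inter_mem h2 h2', inter_subset_inter h3 h3'⟩ }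
    obtain ⟨U, hUF, z, hz, hUz⟩ := key F (fun i hi => by
      rw [inf_principal_neBot_iff]
      rintro t ⟨O, h1, h2, h3⟩
      obtain ⟨c, hcO, hcC⟩ := V.nonempty_of_mem (inter_mem h2 (le_principal_iff.1 hV))
      have hc : c ∈ closure (N i) := mem_iInter.1 hcC ⟨i, hi⟩
      obtain ⟨y, hy1, hy2⟩ := mem_closure_iff.1 hc O h1 hcO
      exact ⟨y, h3 hy1, hy2⟩)
    refine ⟨z, hz, (closed_nhds_basis z).ge_iff.2 fun W hW => ?_⟩
    by_contra hWV
    have h1 : Wᶜ ∈ (V : Filter Y) := Ultrafilter.compl_mem_iff_notMem.2 hWV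
    have h2 : Wᶜ ∈ (U : Filter Y) := hUF ⟨Wᶜ, hW.2.isOpen_compl, h1, subset_rfl⟩
    exact (Ultrafilter.compl_mem_iff_notMem.1 h2) (hUz hW.1)
  refine ⟨C, hC, mem_iInter.2 fun i => subset_closure i.2, fun U hU hCU => ?_⟩
  obtain ⟨V, hVo, hCV, hVU⟩ := hC.exists_isOpen_closure_subset (hU.mem_nhdsSet.2 hCU)
  by_contra hcon
  push Not at hcon
  obtain ⟨W, hW, z, hz, hWz⟩ := key (𝓟 Vᶜ) (fun i hi => by
    rw [inf_principal, principal_neBot_iff]
    by_contra hemp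
    obtain ⟨n, rfl⟩ := he i
    refine hcon n (iInter_subset (fun i : {i // g ∈ N i} => closure (N i.1)) ⟨_, hi⟩) ?_
    refine (closure_mono ?_).trans hVU
    intro y hy
    by_contra hyV
    exact hemp ⟨y, hyV, hy⟩)
  have h1 : V ∈ (W : Filter Y) := hWz (hVo.mem_nhds (hCV hz))
  have h2 : Vᶜ ∈ (W : Filter Y) := le_principal_iff.1 hW
  exact (Ultrafilter.compl_mem_iff_notMem.1 h2) h1

end Pool.Agent.MP_353077_gt

end

section

open Set Filter Topology Cardinal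

namespace Pool.Agent.MP_353077_gt

/-- finitary monotone operator with countable values on finite sets -/
structure FinOp {α β : Type} (G : Set α → Set β) : Prop where
  mono : ∀ S T, S ⊆ T → G S ⊆ G T
  fin : ∀ S b, b ∈ G S → ∃ S0 : Finset α, ↑S0 ⊆ S ∧ b ∈ G S0
  cnt : ∀ S0 : Finset α, (G S0).Countable

variable {α β γ : Type}

theorem mk_finsets_le (S : Set α) {μ : Cardinal} (hμ : ℵ₀ ≤ μ) (hS : #S ≤ μ) :
    #{t : Finset α | ↑t ⊆ S} ≤ μ := by
  classical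
  have h1 : #{t : Finset α | ↑t ⊆ S} ≤ #(Finset S) := by
    refine mk_le_of_surjective (f := fun s : Finset S =>
      (⟨s.map (Function.Embedding.subtype _), ?_⟩ : {t : Finset α | ↑t ⊆ S})) ?_
    · intro x hx
      simp only [Finset.coe_map, mem_image] at hx
      obtain ⟨y, -, rfl⟩ := hx
      exact y.2
    · rintro ⟨t, ht⟩
      refine ⟨t.subtype (· ∈ S), Subtype.ext ?_⟩
      simp only
      rw [Finset.subtype_map]
      exact Finset.filter_true_of_mem fun x hx => ht hx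
  refine h1.trans ?_
  cases finite_or_infinite S with
  | inl h => exact (mk_le_aleph0).trans hμ
  | inr h => rw [mk_finset_of_infinite]; exact hS

theorem FinOp.card_le {G : Set α → Set β} (hG : FinOp G) {S : Set α} {μ : Cardinal}
    (hμ : ℵ₀ ≤ μ) (hS : #S ≤ μ) : #(G S) ≤ μ := by
  have h1 : G S ⊆ ⋃ t ∈ {t : Finset α | ↑t ⊆ S}, G t := by
    intro b hb
    obtain ⟨t, ht, hbt⟩ := hG.fin S b hb
    exact mem_iUnion₂.2 ⟨t, ht, hbt⟩
  refine (mk_le_mk_of_subset h1).trans ((mk_biUnion_le _ _).trans ?_)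
  refine (mul_le_mul' (mk_finsets_le S hμ hS) (ciSup_le' fun t => ?_)).trans
    (mul_eq_self hμ).le
  exact (le_aleph0_iff_set_countable.2 (hG.cnt _)).trans hμ

theorem FinOp.countable {G : Set α → Set β} (hG : FinOp G) {S : Set α} (hS : S.Countable) :
    (G S).Countable :=
  le_aleph0_iff_set_countable.1 (hG.card_le le_rfl (le_aleph0_iff_set_countable.2 hS))

theorem FinOp.fin_finset {G : Set α → Set β} (hG : FinOp G) (S : Set α) (t : Finset β)
    (ht : ↑t ⊆ G S) : ∃ S0 : Finset α, ↑S0 ⊆ S ∧ ↑t ⊆ G S0 := by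
  classical
  induction t using Finset.induction_on with
  | empty => exact ⟨∅, by simp, by simp⟩
  | insert b t hb ih =>
    rw [Finset.coe_insert, insert_subset_iff] at ht
    obtain ⟨S1, h1, h2⟩ := ih ht.2
    obtain ⟨S2, h3, h4⟩ := hG.fin S b ht.1
    refine ⟨S1 ∪ S2, by simp [h1, h3], ?_⟩
    rw [Finset.coe_insert, insert_subset_iff]
    exact ⟨hG.mono _ _ (by simp) h4, h2.trans (hG.mono _ _ (by simp))⟩

theorem FinOp.comp {G : Set α → Set β} {H : Set β → Set γ} (hH : FinOp H) (hG : FinOp G) :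
    FinOp (fun S => H (G S)) where
  mono S T h := hH.mono _ _ (hG.mono _ _ h)
  fin S c hc := by
    obtain ⟨t, ht, hc⟩ := hH.fin _ c hc
    obtain ⟨S0, h1, h2⟩ := hG.fin_finset S t ht
    exact ⟨S0, h1, hH.mono _ _ h2 hc⟩
  cnt S0 := hH.countable (hG.cnt S0)

theorem FinOp.union {G H : Set α → Set β} (hG : FinOp G) (hH : FinOp H) :
    FinOp (fun S => G S ∪ H S) where
  mono S T h := union_subset_union (hG.mono _ _ h) (hH.mono _ _ h)
  fin S b hb := by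
    rcases hb with hb | hb
    · obtain ⟨S0, h1, h2⟩ := hG.fin S b hb
      exact ⟨S0, h1, Or.inl h2⟩
    · obtain ⟨S0, h1, h2⟩ := hH.fin S b hb
      exact ⟨S0, h1, Or.inr h2⟩
  cnt S0 := (hG.cnt S0).union (hH.cnt S0)

theorem FinOp.insert (x : α) : FinOp (fun S : Set α => insert x S) where
  mono S T h := insert_subset_insert h
  fin S b hb := by
    rcases hb with rfl | hb
    · exact ⟨∅, by simp, by simp⟩
    · exact ⟨{b}, by simpa using hb, by simp⟩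
  cnt S0 := S0.countable_toSet.insert x

theorem FinOp.biUnion (f : α → Set β) (hf : ∀ a, (f a).Countable) :
    FinOp (fun S : Set α => ⋃ a ∈ S, f a) where
  mono S T h := biUnion_subset_biUnion_left h
  fin S b hb := by
    obtain ⟨a, ha, hb⟩ := mem_iUnion₂.1 hb
    exact ⟨{a}, by simpa using ha, by simpa using hb⟩
  cnt S0 := S0.countable_toSet.biUnion fun a _ => hf a

theorem FinOp.param {G : γ → Set α → Set β} (hG : ∀ c, FinOp (G c)) (f : α → Set γ)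
    (hf : ∀ a, (f a).Countable) : FinOp (fun S : Set α => ⋃ a ∈ S, ⋃ c ∈ f a, G c S) where
  mono S T h := by
    intro b hb
    simp only [mem_iUnion] at hb ⊢
    obtain ⟨a, ha, c, hc, hb⟩ := hb
    exact ⟨a, h ha, c, hc, (hG c).mono _ _ h hb⟩
  fin S b hb := by
    classical
    simp only [mem_iUnion] at hb ⊢
    obtain ⟨a, ha, c, hc, hb⟩ := hb
    obtain ⟨S0, h1, h2⟩ := (hG c).fin S b hb
    refine ⟨Insert.insert a S0, ?_, a, by simp, c, hc, (hG c).mono _ _ (by simp) h2⟩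
    rw [Finset.coe_insert, insert_subset_iff]
    exact ⟨ha, h1⟩
  cnt S0 := S0.countable_toSet.biUnion fun a _ => (hf a).biUnion fun c _ => (hG c).cnt S0

theorem finset_subset_chain {I : Type} [LinearOrder I] {Φ : I → Set α} (hΦ : Monotone Φ)
    {T : Set I} (hT : T.Nonempty) (t : Finset α) (ht : ↑t ⊆ ⋃ i ∈ T, Φ i) :
    ∃ i ∈ T, ↑t ⊆ Φ i := by
  classical
  induction t using Finset.induction_on with
  | empty => obtain ⟨i, hi⟩ := hT; exact ⟨i, hi, by simp⟩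
  | insert b t hb ih =>
    rw [Finset.coe_insert, insert_subset_iff] at ht
    obtain ⟨i, hi, h1⟩ := ih ht.2
    obtain ⟨j, hj, h2⟩ := mem_iUnion₂.1 ht.1
    rcases le_total i j with h | h
    · refine ⟨j, hj, ?_⟩
      rw [Finset.coe_insert, insert_subset_iff]
      exact ⟨h2, h1.trans (hΦ h)⟩
    · refine ⟨i, hi, ?_⟩
      rw [Finset.coe_insert, insert_subset_iff]
      exact ⟨hΦ h h2, h1⟩

theorem FinOp.chain {G : Set α → Set β} (hG : FinOp G) {I : Type} [LinearOrder I]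
    {Φ : I → Set α} (hΦ : Monotone Φ) {T : Set I} (hT : T.Nonempty) {S : Set α}
    (hS : S ⊆ ⋃ i ∈ T, Φ i) {b : β} (hb : b ∈ G S) : ∃ i ∈ T, b ∈ G (Φ i) := by
  obtain ⟨t, ht, hb⟩ := hG.fin S b hb
  obtain ⟨i, hi, h⟩ := finset_subset_chain hΦ hT t (ht.trans hS)
  exact ⟨i, hi, hG.mono _ _ h hb⟩

theorem FinOp.exists_fixed {F : Set α → Set α} (hF : FinOp F) :
    ∃ D : Set α, D.Countable ∧ F D = D := by
  let A : ℕ → Set α := fun n => F^[n] ∅
  have hs : ∀ n, A (n + 1) = F (A n) := fun n => Function.iterate_succ_apply' F n ∅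
  have hmono : Monotone A := by
    refine monotone_nat_of_le_succ fun n => ?_
    induction n with
    | zero => exact empty_subset _
    | succ n ih => rw [hs (n + 1), hs n]; exact hF.mono _ _ (hs n ▸ ih)
  have hc : ∀ n, (A n).Countable := by
    intro n
    induction n with
    | zero => exact countable_empty
    | succ n ih => rw [hs]; exact hF.countable ih
  refine ⟨⋃ n, A n, countable_iUnion hc, subset_antisymm ?_ ?_⟩
  · intro b hb
    obtain ⟨n, -, hn⟩ := hF.chain hmono (T := univ) univ_nonempty (by simp) hb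
    exact mem_iUnion.2 ⟨n + 1, hs n ▸ hn⟩
  · refine iUnion_subset fun n => ?_
    refine (hmono (Nat.le_succ n)).trans ?_
    rw [hs]
    exact hF.mono _ _ (subset_iUnion A n)

theorem exists_skolem {δ : Type} (K : Set β) (S : δ → Set β) :
    ∃ G : Set δ → Set β, FinOp G ∧ (∀ T, G T ⊆ K) ∧ ∀ T T' : Set δ, T' ⊆ T →
      (∀ t : Finset δ, ↑t ⊆ T' → (K ∩ ⋂ c ∈ t, S c).Nonempty) →
      ∃ U : Ultrafilter β, G T ∈ U ∧ ∀ c ∈ T', S c ∈ U := by
  classical
  let G : Set δ → Set β := fun T =>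
    {b | ∃ t : Finset δ, ↑t ⊆ T ∧ ∃ h : (K ∩ ⋂ c ∈ t, S c).Nonempty, b = h.some}
  refine ⟨G, ⟨?_, ?_, ?_⟩, ?_, ?_⟩
  · rintro S T h b ⟨t, ht, hb⟩
    exact ⟨t, ht.trans h, hb⟩
  · rintro S b ⟨t, ht, hb⟩
    exact ⟨t, ht, t, subset_rfl, hb⟩
  · intro S0
    have h1 : G S0 ⊆ ⋃ t ∈ S0.powerset,
        {b | ∃ h : (K ∩ ⋂ c ∈ t, S c).Nonempty, b = h.some} := by
      rintro b ⟨t, ht, hb⟩
      exact mem_biUnion (Finset.mem_powerset.2 (Finset.coe_subset.1 ht)) hb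
    refine Countable.mono h1 (S0.powerset.countable_toSet.biUnion fun t _ => ?_)
    refine Set.Subsingleton.countable ?_
    rintro _ ⟨h, rfl⟩ _ ⟨h', rfl⟩
    rfl
  · rintro T b ⟨t, -, h, rfl⟩
    exact h.some_mem.1
  · intro T T' hT hne
    let J := {t : Finset δ // ↑t ⊆ T'}
    let F : J → Filter β := fun t => 𝓟 (G T ∩ ⋂ c ∈ t.1, S c)
    have : Nonempty J := ⟨⟨∅, by simp⟩⟩
    have hdir : Directed (· ≥ ·) F := by
      intro s t
      refine ⟨⟨s.1 ∪ t.1, by simp [s.2, t.2]⟩, ?_, ?_⟩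
      · refine principal_mono.2 (inter_subset_inter_right _ ?_)
        exact biInter_subset_biInter_left (by simp)
      · refine principal_mono.2 (inter_subset_inter_right _ ?_)
        exact biInter_subset_biInter_left (by simp)
    have hF : ∀ t, (F t).NeBot := fun t => principal_neBot_iff.2
      ⟨(hne t.1 t.2).some, ⟨t.1, t.2.trans hT, _, rfl⟩, (hne t.1 t.2).some_mem.2⟩
    have : (iInf F).NeBot := iInf_neBot_of_directed' hdir hF
    obtain ⟨U, hU⟩ := Ultrafilter.exists_le (iInf F)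
    have hUt : ∀ t : J, (G T ∩ ⋂ c ∈ t.1, S c) ∈ (U : Filter β) := fun t =>
      le_principal_iff.1 (hU.trans (iInf_le F t))
    refine ⟨U, mem_of_superset (hUt ⟨∅, by simp⟩) inter_subset_left, fun c hc => ?_⟩
    refine mem_of_superset (hUt ⟨{c}, by simpa using hc⟩) ?_
    intro b hb
    simpa using hb.2

end Pool.Agent.MP_353077_gt

end

section

open Set Filter Topology Cardinal

namespace Pool.Agent.MP_353077_gt

variable {X : Type} [TopologicalSpace X]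

/-- a family of continuous functions that is Lindelof Sigma in the pointwise topology -/
def LS (Z : Set C(X, ℝ)) : Prop := UL ((fun f : C(X, ℝ) => (f : X → ℝ)) '' Z)

/-- the two points are not separated by the family -/
def Agree (Φ : Set C(X, ℝ)) (x y : X) : Prop := ∀ φ ∈ Φ, φ x = φ y

/-- the family separates the points of the set -/
def Sep (Φ : Set C(X, ℝ)) (K : Set X) : Prop := ∀ x ∈ K, ∀ y ∈ K, Agree Φ x y → x = y

/-- every subset is split by a Lindelof Sigma family -/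
def Split (X : Type) [TopologicalSpace X] : Prop :=
  ∀ A : Set X, ∃ Z : Set C(X, ℝ), LS Z ∧ ∀ x y, Agree Z x y → x ∈ A → y ∈ A

theorem Agree.refl (Φ : Set C(X, ℝ)) (x : X) : Agree Φ x x := fun _ _ => rfl

theorem Agree.symm {Φ : Set C(X, ℝ)} {x y : X} (h : Agree Φ x y) : Agree Φ y x :=
  fun φ hφ => (h φ hφ).symm

theorem Agree.trans {Φ : Set C(X, ℝ)} {x y z : X} (h : Agree Φ x y) (h' : Agree Φ y z) :
    Agree Φ x z := fun φ hφ => (h φ hφ).trans (h' φ hφ)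

theorem Agree.mono {Φ Ψ : Set C(X, ℝ)} {x y : X} (h : Agree Φ x y) (hs : Ψ ⊆ Φ) :
    Agree Ψ x y := fun φ hφ => h φ (hs hφ)

theorem isClosed_agree (Φ : Set C(X, ℝ)) : IsClosed {p : X × X | Agree Φ p.1 p.2} := by
  have : {p : X × X | Agree Φ p.1 p.2} = ⋂ φ ∈ Φ, {p : X × X | φ p.1 = φ p.2} := by
    ext p; simp [Agree]
  rw [this]
  exact isClosed_biInter fun φ _ =>
    isClosed_eq (φ.continuous.comp continuous_fst) (φ.continuous.comp continuous_snd)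

theorem LS.iUnion {ι : Type} [Countable ι] {Z : ι → Set C(X, ℝ)} (h : ∀ i, LS (Z i)) :
    LS (⋃ i, Z i) := by
  unfold LS
  rw [image_iUnion]
  exact UL.iUnion h

theorem LS.union {Z W : Set C(X, ℝ)} (hZ : LS Z) (hW : LS W) : LS (Z ∪ W) := by
  unfold LS
  rw [image_union]
  exact UL.union hZ hW

theorem LS.empty : LS (∅ : Set C(X, ℝ)) := by
  unfold LS
  rw [image_empty]
  exact UL.empty

theorem eq_of_rat_boxes {β : Type} (U : Ultrafilter β) (f : β → ℝ) (a b : ℝ)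
    (h : Tendsto f U (𝓝 a))
    (hb : ∀ p q : ℚ, (p : ℝ) < b → b < q → ∀ᶠ e in (U : Filter β), (p : ℝ) < f e ∧ f e < q) :
    a = b := by
  refine tendsto_nhds_unique h ?_
  rw [(nhds_basis_Ioo b).tendsto_right_iff]
  rintro ⟨l, u⟩ ⟨h1, h2⟩
  obtain ⟨p, hp1, hp2⟩ := exists_rat_btwn h1
  obtain ⟨q, hq1, hq2⟩ := exists_rat_btwn h2
  filter_upwards [hb p q hp2 hq1] with e he
  exact ⟨hp1.trans he.1, he.2.trans hq2⟩

theorem LS.exists_sigma {Z : Set C(X, ℝ)} (hZ : LS Z) :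
    ∃ σ : Set X → Set C(X, ℝ), FinOp σ ∧ ∀ D : Set X, ∀ x ∈ closure D, ∀ y ∈ closure D,
      Agree (σ D) x y → Agree Z x y := by
  classical
  obtain ⟨ι, hι, N, hN⟩ := hZ
  let S : ι ⊕ (X × ℚ × ℚ) → Set C(X, ℝ) := Sum.elim (fun i => {φ | (φ : X → ℝ) ∈ N i})
    (fun c => {φ | (c.2.1 : ℝ) < φ c.1 ∧ φ c.1 < c.2.2})
  obtain ⟨G, hG, hGZ, hGU⟩ := exists_skolem Z S
  let T : Set X → Set (ι ⊕ (X × ℚ × ℚ)) := fun D =>
    range Sum.inl ∪ ⋃ d ∈ D, range (fun pq : ℚ × ℚ => Sum.inr (d, pq))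
  have hT : FinOp T := by
    refine FinOp.union ⟨fun _ _ _ => subset_rfl, fun S b hb => ⟨∅, by simp, hb⟩,
      fun _ => countable_range _⟩ (FinOp.biUnion _ fun d => countable_range _)
  refine ⟨fun D => G (T D), hG.comp hT, fun D x hx y hy hxy g hg => ?_⟩
  obtain ⟨U, hU1, hU2⟩ := hGU (T D) {c ∈ T D | g ∈ S c} (sep_subset _ _)
    (fun t ht => ⟨g, hg, mem_iInter₂.2 fun c hc => (ht hc).2⟩)
  obtain ⟨_, ⟨h, hh, rfl⟩, hlim⟩ := hN g ⟨g, hg, rfl⟩ (U.map fun f : C(X, ℝ) => (f : X → ℝ))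
    (fun i hi => hU2 (Sum.inl i) ⟨Or.inl ⟨i, rfl⟩, hi⟩)
  have hev : ∀ p : X, Tendsto (fun φ : C(X, ℝ) => φ p) U (𝓝 (h p)) := fun p =>
    ((continuous_apply p).tendsto _).comp hlim
  have h1 : EqOn h g D := by
    intro d hd
    refine eq_of_rat_boxes U _ _ _ (hev d) fun p q hp hq => ?_
    exact hU2 (Sum.inr (d, p, q)) ⟨Or.inr (mem_iUnion₂.2 ⟨d, hd, (p, q), rfl⟩), hp, hq⟩
  have h2 : EqOn h g (closure D) := h1.closure h.continuous g.continuous
  rw [← h2 hx, ← h2 hy]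
  refine tendsto_nhds_unique (hev x) ((hev y).congr' ?_)
  exact mem_of_superset hU1 fun φ hφ => (hxy φ hφ).symm

theorem exists_tau [CompactSpace X] (A : Set X) :
    ∃ τ : Set C(X, ℝ) → Set X, FinOp τ ∧ (∀ Φ, τ Φ ⊆ A) ∧ ∀ Φ, ∀ x ∈ closure A,
      ∃ z ∈ closure (τ Φ), Agree Φ z x := by
  classical
  let S : C(X, ℝ) × ℚ × ℚ → Set X := fun c => {x | (c.2.1 : ℝ) < c.1 x ∧ c.1 x < c.2.2}
  have hS : ∀ c, IsOpen (S c) := fun c =>
    (isOpen_lt continuous_const c.1.continuous).inter (isOpen_lt c.1.continuous continuous_const)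
  obtain ⟨G, hG, hGA, hGU⟩ := exists_skolem A S
  let T : Set C(X, ℝ) → Set (C(X, ℝ) × ℚ × ℚ) := fun Φ =>
    ⋃ φ ∈ Φ, range (fun pq : ℚ × ℚ => (φ, pq))
  have hT : FinOp T := FinOp.biUnion _ fun d => countable_range _
  refine ⟨fun Φ => G (T Φ), hG.comp hT, fun Φ => hGA _, fun Φ x hx => ?_⟩
  obtain ⟨U, hU1, hU2⟩ := hGU (T Φ) {c ∈ T Φ | x ∈ S c} (sep_subset _ _) (fun t ht => by
    have ho : IsOpen (⋂ c ∈ t, S c) := isOpen_biInter_finset fun c _ => hS c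
    obtain ⟨y, hy1, hy2⟩ := mem_closure_iff.1 hx _ ho (mem_iInter₂.2 fun c hc => (ht hc).2)
    exact ⟨y, hy2, hy1⟩)
  obtain ⟨z, -, hz⟩ := isCompact_univ.ultrafilter_le_nhds U (by simp)
  refine ⟨z, mem_closure_iff_ultrafilter.2 ⟨U, hU1, hz⟩, fun φ hφ => ?_⟩
  refine eq_of_rat_boxes U φ _ _ ((φ.continuous.tendsto z).mono_left hz) fun p q hp hq => ?_
  exact hU2 (φ, p, q) ⟨mem_iUnion₂.2 ⟨φ, hφ, (p, q), rfl⟩, hp, hq⟩

variable [CompactSpace X] [T2Space X]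

/-- countable tightness, with a countable family isolating the point -/
theorem Split.tight' (hX : Split X) {A : Set X} {x : X} (hx : x ∈ closure A) :
    ∃ D : Set X, D.Countable ∧ D ⊆ A ∧ x ∈ closure D ∧ ∃ Φ : Set C(X, ℝ), Φ.Countable ∧
      ∀ z ∈ closure D, Agree Φ z x → z = x := by
  obtain ⟨Z, hZ, hZx⟩ := hX {x}
  obtain ⟨σ, hσ, hσs⟩ := hZ.exists_sigma
  obtain ⟨τ, hτ, hτA, hτs⟩ := exists_tau A
  obtain ⟨D, hDc, hD⟩ := (hτ.comp (hσ.comp (FinOp.insert x))).exists_fixed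
  have key : ∀ z ∈ closure D, Agree (σ (insert x D)) z x → z = x := fun z hz h =>
    hZx x z (hσs (insert x D) z (closure_mono (subset_insert _ _) hz) x
      (subset_closure (mem_insert _ _)) h).symm rfl
  refine ⟨D, hDc, hD ▸ hτA _, ?_, σ (insert x D), hσ.countable (hDc.insert x), key⟩
  obtain ⟨z, hz, hzx⟩ := hτs (σ (insert x D)) x hx
  rw [hD] at hz
  exact key z hz hzx ▸ hz

theorem Split.tight (hX : Split X) {A : Set X} {x : X} (hx : x ∈ closure A) :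
    ∃ D : Set X, D.Countable ∧ D ⊆ A ∧ x ∈ closure D := by
  obtain ⟨D, h1, h2, h3, -⟩ := hX.tight' hx
  exact ⟨D, h1, h2, h3⟩

theorem Split.seq (hX : Split X) {A : Set X} {x : X} (hx : x ∈ closure A) :
    ∃ u : ℕ → X, (∀ n, u n ∈ A) ∧ Tendsto u atTop (𝓝 x) := by
  obtain ⟨D, hDc, hDA, hxD, Φ, hΦc, hΦ⟩ := hX.tight' hx
  obtain ⟨e, he⟩ : ∃ e : ℕ → C(X, ℝ), Φ ⊆ range e := by
    obtain ⟨e, he⟩ := (hΦc.insert 0).exists_eq_range (insert_nonempty _ _)
    exact ⟨e, he ▸ subset_insert _ _⟩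
  have h1 : ∀ n : ℕ, ∃ d ∈ D, ∀ k ≤ n, |e k d - e k x| < 1 / ((n : ℝ) + 1) := by
    intro n
    have ho : IsOpen (⋂ k ∈ Finset.range (n + 1), {d | |e k d - e k x| < 1 / ((n : ℝ) + 1)}) :=
      isOpen_biInter_finset fun k _ =>
        isOpen_lt ((e k).continuous.sub continuous_const).abs continuous_const
    obtain ⟨d, hd1, hd2⟩ := mem_closure_iff.1 hxD _ ho (mem_iInter₂.2 fun k _ => by
      simp only [mem_setOf_eq, sub_self, abs_zero]; positivity)
    exact ⟨d, hd2, fun k hk => mem_iInter₂.1 hd1 k (Finset.mem_range.2 (Nat.lt_succ_of_le hk))⟩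
  choose u hu hu' using h1
  refine ⟨u, fun n => hDA (hu n), ?_⟩
  refine isClosed_closure.isCompact.tendsto_nhds_of_unique_mapClusterPt
    (Eventually.of_forall fun n => subset_closure (hu n)) fun z hz hcl => hΦ z hz ?_
  intro φ hφ
  obtain ⟨k, rfl⟩ := he hφ
  have h2 : Tendsto (fun n => e k (u n)) atTop (𝓝 (e k x)) := by
    rw [tendsto_iff_dist_tendsto_zero]
    refine squeeze_zero' (Eventually.of_forall fun _ => dist_nonneg) ?_
      tendsto_one_div_add_atTop_nhds_zero_nat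
    filter_upwards [eventually_ge_atTop k] with n hn
    exact (hu' n k hn).le
  have h3 : MapClusterPt (e k z) atTop (fun n => e k (u n)) :=
    hcl.tendsto_comp ((e k).continuous.tendsto z)
  exact eq_of_nhds_neBot (h3.clusterPt.mono h2)

theorem Split.card_closure (hX : Split X) (D : Set X) : #(closure D) ≤ #D ^ ℵ₀ := by
  have h1 : ∀ x : closure D, ∃ u : ℕ → D, Tendsto (fun n => (u n : X)) atTop (𝓝 x) := by
    intro x
    obtain ⟨u, hu, h⟩ := hX.seq x.2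
    exact ⟨fun n => ⟨u n, hu n⟩, h⟩
  choose u hu using h1
  have h2 : Function.Injective u := by
    intro x y hxy
    refine Subtype.ext (tendsto_nhds_unique (hu x) ?_)
    rw [hxy]; exact hu y
  simpa [mk_arrow] using mk_le_of_injective h2

/-- monolithicity -/
theorem Split.mono (hX : Split X) (D : Set X) {μ : Cardinal} (hμ : ℵ₀ ≤ μ) (hD : #D ≤ μ) :
    ∃ Φ : Set C(X, ℝ), #Φ ≤ μ ∧ Sep Φ (closure D) := by
  obtain ⟨W, rfl⟩ : ∃ W : Type, #W = μ := ⟨μ.out, mk_out μ⟩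
  have h1 : #(closure D) ≤ #(Set W) := by
    refine (hX.card_closure D).trans ?_
    rw [mk_set]
    calc #D ^ ℵ₀ ≤ (2 ^ #W) ^ ℵ₀ := power_le_power_right (hD.trans (cantor _).le)
      _ = 2 ^ (#W * ℵ₀) := by rw [← power_mul]
      _ = 2 ^ #W := by rw [mul_aleph0_eq hμ]
  obtain ⟨e⟩ := (Cardinal.le_def _ _).1 h1
  choose Z hZ hZs using hX
  choose σ hσ hσs using fun A => (hZ A).exists_sigma
  let A : W → Set X := fun w => {x | ∃ h : x ∈ closure D, w ∈ e ⟨x, h⟩}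
  refine ⟨⋃ w, σ (A w) D, ?_, fun x hx y hy hxy => ?_⟩
  · refine (mk_iUnion_le _).trans ((mul_le_mul' le_rfl (ciSup_le' fun w => ?_)).trans
      (mul_eq_self hμ).le)
    exact (hσ _).card_le hμ hD
  · have h2 : ∀ w, Agree (Z (A w)) x y := fun w =>
      hσs (A w) D x hx y hy (hxy.mono (subset_iUnion (fun w => σ (A w) D) w))
    have h3 : e ⟨x, hx⟩ = e ⟨y, hy⟩ := by
      ext w
      constructor
      · intro h
        obtain ⟨_, h'⟩ := hZs _ x y (h2 w) ⟨hx, h⟩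
        exact h'
      · intro h
        obtain ⟨_, h'⟩ := hZs _ y x (h2 w).symm ⟨hy, h⟩
        exact h'
    exact congrArg Subtype.val (e.injective h3)

end Pool.Agent.MP_353077_gt

end

section

open Set Filter Topology Cardinal

namespace Pool.Agent.MP_353077_gt

variable {X : Type} [TopologicalSpace X]

/-- monochromatic set for a countable family of subsets -/
def Mono (χ : ℕ → Set X) (L : Set X) : Prop := ∀ k, ∀ x ∈ L, ∀ y ∈ L, x ∈ χ k → y ∈ χ k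

/-- history of a play -/
def hist (L : ℕ → Set X) : ℕ → List (Set X)
  | 0 => []
  | n + 1 => hist L n ++ [L n]

/-- the colouring player has a winning strategy on the set -/
def Win (K : Set X) : Prop :=
  ∃ col : List (Set X) → ℕ → Set X, ∀ L : ℕ → Set X, (∀ n, IsClosed (L n)) → L 0 ⊆ K →
    (∀ n, L (n + 1) ⊆ L n) → (∀ n, Mono (col (hist L n)) (L n)) →
    ∀ x y, (∀ n, x ∈ L n) → (∀ n, y ∈ L n) → x = y

theorem hist_succ (L : ℕ → Set X) (n : ℕ) :
    hist L (n + 1) = L 0 :: hist (fun i => L (i + 1)) n := by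
  induction n with
  | zero => rfl
  | succ n ih => rw [hist, ih]; rfl

theorem hist_map (L : ℕ → Set X) (f : Set X → Set X) (n : ℕ) :
    (hist L n).map f = hist (fun i => f (L i)) n := by
  induction n with
  | zero => rfl
  | succ n ih => rw [hist, List.map_append, ih]; rfl

theorem exists_nat_family {ι : Type} [Countable ι] (A : ι → Set X) :
    ∃ χ : ℕ → Set X, ∀ L, Mono χ L → ∀ i, ∀ x ∈ L, ∀ y ∈ L, x ∈ A i → y ∈ A i := by
  obtain ⟨e, he⟩ := exists_injective_nat ι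
  refine ⟨fun k => {x | ∃ i, e i = k ∧ x ∈ A i}, fun L hL i x hx y hy hxi => ?_⟩
  obtain ⟨j, hj, h⟩ := hL (e i) x hx y hy ⟨i, rfl, hxi⟩
  exact he hj ▸ h

theorem Win.mono {K K' : Set X} (h : Win K) (hs : K' ⊆ K) : Win K' := by
  obtain ⟨col, hcol⟩ := h
  exact ⟨col, fun L h1 h2 => hcol L h1 (h2.trans hs)⟩

theorem Win.step {K : Set X} {ι : Type} [Countable ι] (A : ι → Set X)
    (h : ∀ L, IsClosed L → L ⊆ K → (∀ i, ∀ x ∈ L, ∀ y ∈ L, x ∈ A i → y ∈ A i) → Win L) :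
    Win K := by
  classical
  obtain ⟨χ, hχ⟩ := exists_nat_family A
  let c : Set X → List (Set X) → ℕ → Set X := fun L =>
    if h : Win L then h.choose else fun _ _ => ∅
  refine ⟨fun l => match l with
    | [] => χ
    | L0 :: rest => c L0 rest, fun L h1 h2 h3 h4 x y hx hy => ?_⟩
  have hw : Win (L 0) := h (L 0) (h1 0) h2 (hχ _ (h4 0))
  refine hw.choose_spec (fun i => L (i + 1)) (fun n => h1 _) (h3 0) (fun n => h3 _) (fun n => ?_)
    x y (fun n => hx _) (fun n => hy _)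
  have := h4 (n + 1)
  rw [hist_succ] at this
  simpa [c, hw] using this

theorem Win.of_subsingleton {K : Set X} (h : K.Subsingleton) : Win K :=
  ⟨fun _ _ => ∅, fun L _ h2 _ _ x y hx hy => h (h2 (hx 0)) (h2 (hy 0))⟩

theorem Win.of_countable {K : Set X} {Φ : Set C(X, ℝ)} (hΦ : Φ.Countable) (hs : Sep Φ K) :
    Win K := by
  have := hΦ.to_subtype
  refine Win.step (fun c : Φ × ℚ => {x | c.1.1 x < c.2}) fun L _ hL hm => ?_
  refine Win.of_subsingleton fun x hx y hy => hs x (hL hx) y (hL hy) fun φ hφ => ?_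
  by_contra hne
  rcases lt_or_gt_of_ne hne with h | h
  · obtain ⟨q, h1, h2⟩ := exists_rat_btwn h
    exact lt_asymm h2 (hm (⟨φ, hφ⟩, q) x hx y hy h1)
  · obtain ⟨q, h1, h2⟩ := exists_rat_btwn h
    exact lt_asymm h2 (hm (⟨φ, hφ⟩, q) y hy x hx h1)

theorem Win.prod {K : Set X} {ι : Type} [Countable ι] (r : ι → X → X) (Ks : ι → Set X)
    (hw : ∀ i, Win (Ks i)) (hmap : ∀ i, ∀ x ∈ K, r i x ∈ Ks i)
    (hcl : ∀ i L, IsClosed L → L ⊆ K → IsClosed (r i '' L))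
    (hinj : ∀ x ∈ K, ∀ y ∈ K, (∀ i, r i x = r i y) → x = y) : Win K := by
  choose col hcol using hw
  choose χ hχ using fun l : List (Set X) =>
    exists_nat_family (fun c : ι × ℕ => r c.1 ⁻¹' col c.1 (l.map (image (r c.1))) c.2)
  refine ⟨χ, fun L h1 h2 h3 h4 x y hx hy => hinj x (h2 (hx 0)) y (h2 (hy 0)) fun i => ?_⟩
  have hK : ∀ n, L n ⊆ K := by
    intro n
    induction n with
    | zero => exact h2
    | succ n ih => exact (h3 n).trans ih
  refine hcol i (fun n => r i '' L n) (fun n => hcl i _ (h1 n) (hK n)) ?_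
    (fun n => image_mono (h3 n)) (fun n => ?_) _ _ (fun n => ⟨x, hx n, rfl⟩)
    (fun n => ⟨y, hy n, rfl⟩)
  · rintro _ ⟨z, hz, rfl⟩
    exact hmap i z (h2 hz)
  · rintro k _ ⟨u, hu, rfl⟩ _ ⟨v, hv, rfl⟩ huv
    have := hχ _ _ (h4 n) (i, k) u hu v hv
    simp only [hist_map, mem_preimage] at this
    exact this huv

theorem Win.exists_LS (hX : Split X) {K : Set X} (hK : IsClosed K) (h : Win K) :
    ∃ Z : Set C(X, ℝ), LS Z ∧ Sep Z K := by
  obtain ⟨col, hcol⟩ := h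
  choose Zs hZs hZA using hX
  let cls : Set C(X, ℝ) → X → Set X := fun Z x => {y | y ∈ K ∧ Agree Z x y}
  let nz : Set C(X, ℝ) × (X → List (Set X)) → Set C(X, ℝ) := fun s =>
    s.1 ∪ ⋃ k, Zs {x | x ∈ col (s.2 x) k}
  let step : Set C(X, ℝ) × (X → List (Set X)) → Set C(X, ℝ) × (X → List (Set X)) := fun s =>
    (nz s, fun x => s.2 x ++ [cls (nz s) x])
  let st : ℕ → Set C(X, ℝ) × (X → List (Set X)) := fun n => step^[n] (∅, fun _ => [])
  have hst : ∀ n, st (n + 1) = step (st n) := fun n => Function.iterate_succ_apply' step n _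
  have hsub : ∀ n, (st n).1 ⊆ (st (n + 1)).1 := fun n => by
    rw [hst]; exact subset_union_left
  have hLS : ∀ n, LS (st n).1 := by
    intro n
    induction n with
    | zero => exact LS.empty
    | succ n ih => rw [hst]; exact ih.union (LS.iUnion fun k => hZs _)
  have hinv : ∀ n x y, Agree (st n).1 x y → (st n).2 x = (st n).2 y := by
    intro n
    induction n with
    | zero => intro x y _; rfl
    | succ n ih =>
      intro x y hxy
      have h1 := ih x y (hxy.mono (hsub n))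
      rw [hst] at hxy ⊢
      have h2 : cls (nz (st n)) x = cls (nz (st n)) y := by
        ext z
        exact ⟨fun hz => ⟨hz.1, hxy.symm.trans hz.2⟩, fun hz => ⟨hz.1, hxy.trans hz.2⟩⟩
      simp only [step, h1, h2]
  have hhist : ∀ x n, (st n).2 x = hist (fun i => cls (st (i + 1)).1 x) n := by
    intro x n
    induction n with
    | zero => rfl
    | succ n ih => rw [hist, ← ih, hst]
  refine ⟨⋃ n, (st n).1, LS.iUnion hLS, fun x hx y hy hxy => ?_⟩
  refine hcol (fun i => cls (st (i + 1)).1 x) (fun n => ?_) (fun z hz => hz.1)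
    (fun n z hz => ⟨hz.1, hz.2.mono (hsub _)⟩) (fun n => ?_) x y
    (fun n => ⟨hx, Agree.refl _ _⟩) (fun n => ⟨hy, hxy.mono (subset_iUnion (fun n => (st n).1) _)⟩)
  · exact hK.inter ((isClosed_agree _).preimage (Continuous.prodMk_right x))
  · intro k u hu v hv huk
    rw [← hhist] at huk ⊢
    have h1 : (st n).2 x = (st n).2 u := hinv n x u (hu.2.mono (hsub n))
    have h2 : (st n).2 x = (st n).2 v := hinv n x v (hv.2.mono (hsub n))
    have h3 : Agree (Zs {x | x ∈ col ((st n).2 x) k}) u v := by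
      refine (hu.2.symm.trans hv.2).mono ?_
      rw [hst]
      exact (subset_iUnion (fun k => Zs {x | x ∈ col ((st n).2 x) k}) k).trans subset_union_right
    have h4 := hZA _ u v h3 (show u ∈ col ((st n).2 u) k from h1 ▸ huk)
    rw [h2]
    exact h4

end Pool.Agent.MP_353077_gt

end

section

open Set Filter Topology Cardinal

namespace Pool.Agent.MP_353077_gt

section Order

variable {I : Type} [LinearOrder I]

/-- limit point of the index order -/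
def IsLim (δ : I) : Prop := (∃ i, i < δ) ∧ ∀ i < δ, ∃ j, i < j ∧ j < δ

/-- every countable set has a strict upper bound -/
def Bd (I : Type) [LinearOrder I] : Prop := ∀ S : Set I, S.Countable → ∃ b, ∀ i ∈ S, i < b

theorem Bd.nonempty (h : Bd I) : Nonempty I := by
  obtain ⟨b, -⟩ := h ∅ countable_empty
  exact ⟨b⟩

variable [WellFoundedLT I]

theorem Bd.exists_nxt (h : Bd I) : ∃ nxt : I → I, ∀ i j, nxt i ≤ j ↔ i < j := by
  have h1 : ∀ i : I, (Ioi i).Nonempty := fun i => by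
    obtain ⟨b, hb⟩ := h {i} (countable_singleton i)
    exact ⟨b, hb i rfl⟩
  refine ⟨fun i => wellFounded_lt.min (Ioi i) (h1 i), fun i j => ⟨fun hj => ?_, fun hj => ?_⟩⟩
  · exact lt_of_lt_of_le (wellFounded_lt.min_mem (Ioi i) (h1 i)) hj
  · exact not_lt.1 (wellFounded_lt.not_lt_min (Ioi i) hj)

theorem Bd.club (h : Bd I) (R : I → I → Prop) (hR : ∀ i, ∃ j, R i j)
    (hm : ∀ i i' j j', i' ≤ i → j ≤ j' → R i j → R i' j') (a : I) :
    ∃ δ, a < δ ∧ IsLim δ ∧ ∀ i < δ, ∃ j < δ, R i j := by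
  have h1 : ∀ i, ∃ j, i < j ∧ R i j := fun i => by
    obtain ⟨j, hj⟩ := hR i
    obtain ⟨b, hb⟩ := h {i, j} (by simp)
    exact ⟨b, hb i (by simp), hm i i j b le_rfl (hb j (by simp)).le hj⟩
  choose f hf hfR using h1
  let u : ℕ → I := fun n => f^[n] a
  have hu : ∀ n, u (n + 1) = f (u n) := fun n => Function.iterate_succ_apply' f n a
  have hne : {b | ∀ n, u n < b}.Nonempty := by
    obtain ⟨b, hb⟩ := h (range u) (countable_range u)
    exact ⟨b, fun n => hb _ ⟨n, rfl⟩⟩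
  let δ := wellFounded_lt.min _ hne
  have hδ : ∀ n, u n < δ := wellFounded_lt.min_mem _ hne
  have hδ' : ∀ i < δ, ∃ n, i ≤ u n := fun i hi => by
    by_contra hc
    push Not at hc
    exact wellFounded_lt.not_lt_min {b | ∀ n, u n < b} hc hi
  refine ⟨δ, hδ 0, ⟨⟨a, hδ 0⟩, fun i hi => ?_⟩, fun i hi => ?_⟩
  · obtain ⟨n, hn⟩ := hδ' i hi
    exact ⟨u (n + 1), hn.trans_lt (hu n ▸ hf _), hδ _⟩
  · obtain ⟨n, hn⟩ := hδ' i hi
    exact ⟨u (n + 1), hδ _, hm _ _ _ _ hn le_rfl (hu n ▸ hfR _)⟩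

theorem exists_type_colouring {X : Type} (J : X → Set I) :
    ∃ A : ℕ × ℕ → Set X, ∀ y y', (J y).Countable → (J y').Countable →
      (∀ c, y' ∈ A c → y ∈ A c) → J y ⊆ J y' → ∀ i ∈ J y', ∃ j ∈ J y, i ≤ j := by
  classical
  have h1 : ∀ x, ∃ e : I → ℕ, (J x).Countable → InjOn e (J x) := fun x => by
    by_cases h : (J x).Countable
    · obtain ⟨e, he⟩ := countable_iff_exists_injOn.1 h
      exact ⟨e, fun _ => he⟩
    · exact ⟨fun _ => 0, fun h' => (h h').elim⟩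
  choose e he using h1
  refine ⟨fun c => {x | ∃ a ∈ J x, ∃ b ∈ J x, e x a = c.1 ∧ e x b = c.2 ∧ a ≤ b},
    fun y y' hy hy' hA hJ i hi => ?_⟩
  have h2 : ∀ a : J y', ∃ b : J y', b.1 ∈ J y ∧ e y b = e y' a := fun a => by
    obtain ⟨b, hb, -, -, h, -⟩ := hA (e y' a, e y' a) ⟨a, a.2, a, a.2, rfl, rfl, le_rfl⟩
    exact ⟨⟨b, hJ hb⟩, hb, h⟩
  choose f hf hfe using h2
  have h3 : StrictMono f := by
    intro a b hab
    obtain ⟨a', ha', b', hb', h4, h5, h6⟩ :=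
      hA (e y' a, e y' b) ⟨a, a.2, b, b.2, rfl, rfl, le_of_lt hab⟩
    have h7 : a' = f a := he y hy ha' (hf a) (h4.trans (hfe a).symm)
    have h8 : b' = f b := he y hy hb' (hf b) (h5.trans (hfe b).symm)
    refine lt_of_le_of_ne (show (f a).1 ≤ (f b).1 from h7 ▸ h8 ▸ h6) fun h9 => ?_
    have h10 : e y' a = e y' b := by rw [← hfe, ← hfe, h9]
    exact hab.ne (Subtype.ext (he y' hy' a.2 b.2 h10))
  exact ⟨f ⟨i, hi⟩, hf _, h3.le_apply (x := ⟨i, hi⟩)⟩

end Order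

variable {X : Type} [TopologicalSpace X]

/-- the data used to approximate a closed set -/
structure Tau (K : Set X) (τ : Set C(X, ℝ) → Set X) : Prop where
  closed : IsClosed K
  fin : FinOp τ
  sub : ∀ Ψ, τ Ψ ⊆ K
  approx : ∀ Ψ, ∀ x ∈ K, ∃ z ∈ closure (τ Ψ), Agree Ψ z x

theorem exists_Tau [CompactSpace X] {K : Set X} (hK : IsClosed K) : ∃ τ, Tau K τ := by
  obtain ⟨τ, h1, h2, h3⟩ := exists_tau K
  exact ⟨τ, hK, h1, h2, fun Ψ x hx => h3 Ψ x (subset_closure hx)⟩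

theorem Tau.closure_sub {K : Set X} {τ : Set C(X, ℝ) → Set X} (h : Tau K τ) (Ψ : Set C(X, ℝ)) :
    closure (τ Ψ) ⊆ K := closure_minimal (h.sub Ψ) h.closed

theorem Tau.closure_mono {K : Set X} {τ : Set C(X, ℝ) → Set X} (h : Tau K τ)
    {Ψ Ψ' : Set C(X, ℝ)} (hs : Ψ ⊆ Ψ') : closure (τ Ψ) ⊆ closure (τ Ψ') :=
  _root_.closure_mono (h.fin.mono _ _ hs)

/-- a continuous chain of good families -/
structure Chain (K : Set X) (τ : Set C(X, ℝ) → Set X) {I : Type} [LinearOrder I]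
    (Φ : I → Set C(X, ℝ)) (nxt : I → I) : Prop where
  split : Split X
  tau : Tau K τ
  bd : Bd I
  hn : ∀ i j, nxt i ≤ j ↔ i < j
  mono : Monotone Φ
  cont : ∀ δ, IsLim δ → Φ δ ⊆ ⋃ i ∈ Iio δ, Φ i
  good : ∀ i, Sep (Φ i) (closure (τ (Φ i)))
  cov : ∀ x ∈ K, ∃ i, x ∈ closure (τ (Φ i))

/-- points whose shadow does not move at the index -/
def Stay (τ : Set C(X, ℝ) → Set X) {I : Type} (Φ : I → Set C(X, ℝ)) (nxt : I → I) (i : I) :
    Set X := {x | ∃ z ∈ closure (τ (Φ i)), Agree (Φ (nxt i)) z x}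

variable [CompactSpace X] [T2Space X]

theorem isClosed_shadow_fst {A : Set X} (hA : IsClosed A) (Ψ : Set C(X, ℝ)) :
    IsClosed {x | ∃ z ∈ A, Agree Ψ z x} := by
  have h1 : IsClosed ({p : X × X | p.1 ∈ A} ∩ {p : X × X | Agree Ψ p.1 p.2}) :=
    (hA.preimage continuous_fst).inter (isClosed_agree Ψ)
  have h2 := (h1.isCompact.image continuous_snd).isClosed
  convert h2 using 1
  ext x
  constructor
  · rintro ⟨z, hz, h⟩
    exact ⟨(z, x), ⟨hz, h⟩, rfl⟩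
  · rintro ⟨p, hp, rfl⟩
    exact ⟨p.1, hp.1, hp.2⟩

variable {K : Set X} {τ : Set C(X, ℝ) → Set X} {I : Type} [LinearOrder I] [WellFoundedLT I]
  {Φ : I → Set C(X, ℝ)} {nxt : I → I}

theorem Chain.xmono (h : Chain K τ Φ nxt) {i j : I} (hij : i ≤ j) :
    closure (τ (Φ i)) ⊆ closure (τ (Φ j)) := h.tau.closure_mono (h.mono hij)

theorem Chain.stay_of_mem (h : Chain K τ Φ nxt) {x : X} {δ i : I} (hx : x ∈ closure (τ (Φ δ)))
    (hi : δ ≤ i) : x ∈ Stay τ Φ nxt i := ⟨x, h.xmono hi hx, Agree.refl _ _⟩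

theorem Chain.bounded (h : Chain K τ Φ nxt) {D : Set X} (hD : D.Countable) (hK : D ⊆ K) :
    ∃ δ, D ⊆ closure (τ (Φ δ)) := by
  have := h.bd.nonempty
  choose! f hf using h.cov
  obtain ⟨b, hb⟩ := h.bd (f '' D) (hD.image f)
  exact ⟨b, fun x hx => h.xmono (hb _ ⟨x, hx, rfl⟩).le (hf x (hK hx))⟩

theorem Chain.jump_countable (h : Chain K τ Φ nxt) {x : X} (hx : x ∈ K) :
    {i | x ∉ Stay τ Φ nxt i}.Countable := by
  set J := {i | x ∉ Stay τ Φ nxt i} with hJ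
  by_contra hc
  obtain ⟨i0, hi0⟩ := h.cov x hx
  have hne : {β | ¬ (J ∩ Iio β).Countable}.Nonempty := by
    refine ⟨i0, fun hcc => hc (Countable.mono (fun i hi => mem_inter hi ?_) hcc)⟩
    by_contra hlt
    exact hi (h.stay_of_mem hi0 (not_lt.1 hlt))
  let β := wellFounded_lt.min _ hne
  have hβ : ¬ (J ∩ Iio β).Countable := wellFounded_lt.min_mem _ hne
  have hβ' : ∀ i < β, (J ∩ Iio i).Countable := fun i hi => by
    by_contra hcc
    exact wellFounded_lt.not_lt_min {β | ¬ (J ∩ Iio β).Countable} hcc hi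
  have hnext : ∀ i < β, ∃ j ∈ J, i < j ∧ j < β := fun i hi => by
    by_contra hcc
    push Not at hcc
    refine hβ (((hβ' i hi).insert i).mono fun j hj => ?_)
    rcases lt_trichotomy j i with h1 | h1 | h1
    · exact Or.inr ⟨hj.1, h1⟩
    · exact Or.inl h1
    · exact absurd hj.2 (not_lt.2 (hcc j hj.1 h1))
  have hβne : (Iio β).Nonempty := by
    by_contra hcc
    rw [not_nonempty_iff_eq_empty] at hcc
    exact hβ (by simp [hcc])
  have hlim : IsLim β := ⟨hβne, fun i hi => by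
    obtain ⟨j, -, h1, h2⟩ := hnext i hi
    exact ⟨j, h1, h2⟩⟩
  obtain ⟨z, hz, hzx⟩ := h.tau.approx (Φ β) x hx
  obtain ⟨B, hBc, hB, hzB⟩ := h.split.tight hz
  have h1 : ∀ b ∈ B, ∃ i ∈ Iio β, b ∈ τ (Φ i) := fun b hb =>
    h.tau.fin.chain h.mono hβne (h.cont β hlim) (hB hb)
  have := h.bd.nonempty
  choose! f hf hfb using h1
  have h2 : ∃ γ < β, ∀ b ∈ B, f b ≤ γ := by
    by_contra hcc
    push Not at hcc
    refine hβ ((hBc.biUnion fun b hb => hβ' (f b) (hf b hb)).mono fun j hj => ?_)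
    obtain ⟨b, hb, hjb⟩ := hcc j hj.2
    exact mem_iUnion₂.2 ⟨b, hb, hj.1, hjb⟩
  obtain ⟨γ, hγ, hγb⟩ := h2
  obtain ⟨j, hjJ, hγj, hjβ⟩ := hnext γ hγ
  refine hjJ ⟨z, closure_mono (fun b hb => ?_) hzB, hzx.mono (h.mono ((h.hn _ _).2 hjβ))⟩
  exact h.tau.fin.mono _ _ (h.mono ((hγb b hb).trans hγj.le)) (hfb b hb)

theorem Chain.exists_jump (h : Chain K τ Φ nxt) {x : X} (hx : x ∈ K) {δ : I}
    (hδ : x ∉ closure (τ (Φ δ))) : ∃ i, δ ≤ i ∧ x ∉ Stay τ Φ nxt i := by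
  by_contra hc
  push Not at hc
  obtain ⟨z, hz, hzx⟩ := h.tau.approx (Φ δ) x hx
  have key : ∀ j, Agree (Φ j) z x := by
    intro j
    induction j using WellFoundedLT.induction with
    | ind j ih =>
      rcases le_or_gt j δ with hj | hj
      · exact hzx.mono (h.mono hj)
      · by_cases hl : IsLim j
        · intro φ hφ
          obtain ⟨i, hi, hφi⟩ := mem_iUnion₂.1 (h.cont j hl hφ)
          exact ih i hi φ hφi
        · have h1 : ∃ i < j, ∀ k, i < k → j ≤ k := by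
            by_contra hcc
            push Not at hcc
            exact hl ⟨⟨δ, hj⟩, hcc⟩
          obtain ⟨i, hi, hik⟩ := h1
          have hδi : δ ≤ i := by
            by_contra hcc
            exact absurd (hik δ (not_le.1 hcc)) (not_le.2 hj)
          have hji : j ≤ nxt i := hik _ ((h.hn _ _).1 le_rfl)
          obtain ⟨z', hz', hz'x⟩ := hc i hδi
          have h2 : z = z' := h.good i z (h.xmono hδi hz) z' hz'
            ((ih i hi).trans (hz'x.mono (h.mono ((h.hn _ _).1 le_rfl).le)).symm)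
          exact h2 ▸ hz'x.mono (h.mono hji)
  obtain ⟨j, hj⟩ := h.cov x hx
  have h3 : z = x := h.good (max j δ) z (h.xmono (le_max_right _ _) hz) x
    (h.xmono (le_max_left _ _) hj) (key _)
  exact hδ (h3 ▸ hz)

theorem Chain.win (h : Chain K τ Φ nxt) (hw : ∀ i, Win (closure (τ (Φ i))))
    (hkey : ∀ L, IsClosed L → L ⊆ K → (∀ i, ¬ L ⊆ closure (τ (Φ i))) →
      ∃ y ∈ L, ∃ y' ∈ L, ∃ δ, y ∈ closure (τ (Φ δ)) ∧ y' ∉ closure (τ (Φ δ)) ∧
        ∀ i, y' ∈ Stay τ Φ nxt i → y ∈ Stay τ Φ nxt i) : Win K := by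
  obtain ⟨A, hA⟩ := exists_type_colouring (fun x : X => {i | x ∉ Stay τ Φ nxt i})
  refine Win.step A fun L hL hLK hm => ?_
  by_contra hc
  obtain ⟨y, hy, y', hy', δ, h1, h2, h3⟩ := hkey L hL hLK fun i hi => hc ((hw i).mono hi)
  obtain ⟨i, hδi, hi⟩ := h.exists_jump (hLK hy') h2
  obtain ⟨j, hj, hij⟩ := hA y y' (h.jump_countable (hLK hy)) (h.jump_countable (hLK hy'))
    (fun c => hm c y' hy' y hy) (fun k hk hk' => hk (h3 k hk')) i hi
  exact hj (h.stay_of_mem h1 (hδi.trans hij))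

theorem Chain.win_reg (h : Chain K τ Φ nxt) (hw : ∀ i, Win (closure (τ (Φ i))))
    (hreg : ∀ i, ∀ S : Set I, #S ≤ max #(Φ i) ℵ₀ → ∃ b, ∀ j ∈ S, j ≤ b) : Win K := by
  refine h.win hw fun L hL hLK hunb => ?_
  obtain ⟨τL, hτL⟩ := exists_Tau hL
  have := h.bd.nonempty
  choose! f hf using h.cov
  obtain ⟨a, -⟩ := h.bd ∅ countable_empty
  obtain ⟨δ, -, hlim, hδ⟩ := h.bd.club (fun i j => τL (Φ i) ⊆ closure (τ (Φ j))) (fun i => by
      obtain ⟨b, hb⟩ := hreg i (f '' τL (Φ i)) (mk_image_le.trans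
        (hτL.fin.card_le (le_max_right _ _) (le_max_left _ _)))
      exact ⟨b, fun x hx => h.xmono (hb _ ⟨x, hx, rfl⟩) (hf x (hLK (hτL.sub _ hx)))⟩)
    (fun i i' j j' hi hj hR => (hτL.fin.mono _ _ (h.mono hi)).trans (hR.trans (h.xmono hj))) a
  have h1 : τL (Φ δ) ⊆ closure (τ (Φ δ)) := fun b hb => by
    obtain ⟨i, hi, hbi⟩ := hτL.fin.chain h.mono hlim.1 (h.cont δ hlim) hb
    obtain ⟨j, hj, hR⟩ := hδ i hi
    exact h.xmono hj.le (hR hbi)
  obtain ⟨y', hy', hy'δ⟩ := not_subset.1 (hunb δ)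
  obtain ⟨y, hy, hyy'⟩ := hτL.approx (Φ δ) y' hy'
  have hyδ : y ∈ closure (τ (Φ δ)) := closure_minimal h1 isClosed_closure hy
  refine ⟨y, hτL.closure_sub _ hy, y', hy', δ, hyδ, hy'δ, fun i hi => ?_⟩
  rcases le_or_gt δ i with hδi | hδi
  · exact h.stay_of_mem hyδ hδi
  · obtain ⟨z, hz, hzy⟩ := hi
    exact ⟨z, hz, hzy.trans (hyy'.mono (h.mono ((h.hn _ _).2 hδi))).symm⟩

theorem Chain.win_sing (h : Chain K τ Φ nxt) (hw : ∀ i, Win (closure (τ (Φ i))))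
    (hsing : ∀ y : I → X, (∀ i, y i ∈ K) → Win (closure (range y))) : Win K := by
  refine h.win hw fun L hL hLK hunb => ?_
  choose y hyL hy using fun i => not_subset.1 (hunb i)
  let K' := closure (range y)
  have hK'L : K' ⊆ L := closure_minimal (range_subset_iff.2 hyL) hL
  obtain ⟨Z, hZ, hZs⟩ := (hsing y fun i => hLK (hyL i)).exists_LS h.split isClosed_closure
  obtain ⟨σ, hσ, hσs⟩ := hZ.exists_sigma
  obtain ⟨τ0, hτ0⟩ := exists_Tau (K := K') isClosed_closure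
  have hst : ∀ i, IsClosed (Stay τ Φ nxt i) := fun i => isClosed_shadow_fst isClosed_closure _
  choose τs hτs using fun i => exists_Tau (K := K' ∩ Stay τ Φ nxt i)
    (isClosed_closure.inter (hst i))
  let J : X → Set I := fun x => {i | x ∈ K ∧ x ∉ Stay τ Φ nxt i}
  have hJ : ∀ x, (J x).Countable := fun x => by
    by_cases hx : x ∈ K
    · exact (h.jump_countable hx).mono fun i hi => hi.2
    · exact countable_empty.mono fun i hi => hx hi.1
  obtain ⟨D, hDc, hD⟩ := ((hτ0.fin.comp hσ).union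
    (FinOp.param (fun i => (hτs i).fin.comp hσ) J hJ)).exists_fixed
  have hDK' : D ⊆ K' := by
    rw [← hD]
    refine union_subset (hτ0.sub _) (iUnion₂_subset fun a _ => iUnion₂_subset fun i _ => ?_)
    exact ((hτs i).sub _).trans inter_subset_left
  have hDK : closure D ⊆ K' := closure_minimal hDK' isClosed_closure
  obtain ⟨δ, hδ⟩ := h.bounded hDc (hDK'.trans (hK'L.trans hLK))
  have hy' : y δ ∈ K' := subset_closure ⟨δ, rfl⟩
  obtain ⟨z, hz, hzy⟩ := hτ0.approx (σ D) (y δ) hy'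
  have hzD : z ∈ closure D := closure_mono (by
    conv_rhs => rw [← hD]
    exact subset_union_left) hz
  refine ⟨z, hK'L (hDK hzD), y δ, hyL δ, δ, closure_minimal hδ isClosed_closure hzD, hy δ,
    fun i hi => ?_⟩
  by_cases hc : ∃ d ∈ D, i ∈ J d
  · obtain ⟨d, hd, hdi⟩ := hc
    obtain ⟨w, hw, hwy⟩ := (hτs i).approx (σ D) (y δ) ⟨hy', hi⟩
    have hwD : w ∈ closure D := closure_mono (by
      conv_rhs => rw [← hD]
      intro b hb
      exact Or.inr (mem_iUnion₂.2 ⟨d, hd, mem_iUnion₂.2 ⟨i, hdi, hb⟩⟩)) hw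
    have h1 : w = z := hZs w (hDK hwD) z (hDK hzD) (hσs D w hwD z hzD (hwy.trans hzy.symm))
    exact h1 ▸ ((hτs i).closure_sub _ hw).2
  · push Not at hc
    refine closure_minimal (fun d hd => ?_) (hst i) hzD
    by_contra hcc
    exact hc d hd ⟨hLK (hK'L (hDK' hd)), hcc⟩

theorem Tau.win_countable (h : Tau K τ) {ι : Type} [Countable ι] (Ψ : ι → Set C(X, ℝ))
    (hgood : ∀ i, Sep (Ψ i) (closure (τ (Ψ i)))) (hw : ∀ i, Win (closure (τ (Ψ i))))
    (hs : Sep (⋃ i, Ψ i) K) : Win K := by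
  choose! r hr hra using h.approx
  refine Win.prod (fun i => r (Ψ i)) _ hw (fun i x hx => hr _ x hx) (fun i L hL hLK => ?_)
    fun x hx y hy hxy => hs x hx y hy fun φ hφ => ?_
  · have h1 := (isClosed_closure (s := τ (Ψ i))).inter (isClosed_shadow_fst hL (Ψ i))
    convert h1 using 1
    ext z
    constructor
    · rintro ⟨x, hx, rfl⟩
      exact ⟨hr _ x (hLK hx), x, hx, (hra _ x (hLK hx)).symm⟩
    · rintro ⟨hz, x, hx, hxz⟩
      exact ⟨x, hx, hgood i _ (hr _ x (hLK hx)) z hz ((hra _ x (hLK hx)).trans hxz)⟩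
  · obtain ⟨i, hi⟩ := mem_iUnion.1 hφ
    rw [← hra _ x hx φ hi, ← hra _ y hy φ hi, hxy i]

end Pool.Agent.MP_353077_gt

end

section

open Set Filter Topology Cardinal

namespace Pool.Agent.MP_353077_gt

theorem exists_rec {Ω α : Type} [LinearOrder Ω] [WellFoundedLT Ω] (F : Ω → Set α → Set α) :
    ∃ m : Ω → Set α, ∀ ν, m ν = F ν (⋃ ξ ∈ Iio ν, m ξ) := by
  refine ⟨WellFoundedLT.fix (fun ν prev => F ν (⋃ ξ, ⋃ h : ξ < ν, prev ξ h)), fun ν => ?_⟩
  rw [WellFoundedLT.fix_eq]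
  rfl

theorem bound_of_lt_cof {κ : Cardinal} (S : Set κ.ord.ToType) (hS : #S < κ.ord.cof) :
    ∃ b, ∀ i ∈ S, i < b := by
  rw [← not_isCofinal_iff]
  intro h
  have := Order.cof_le h
  rw [Ordinal.cof_toType] at this
  exact absurd hS (not_lt.2 this)

theorem exists_order {κ : Cardinal} (h : κ.IsRegular) :
    ∃ (I : Type) (_ : LinearOrder I) (_ : WellFoundedLT I), #I = κ ∧ (∀ i : I, #(Iio i) < κ) ∧
      ∀ S : Set I, #S < κ → ∃ b, ∀ i ∈ S, i < b :=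
  ⟨κ.ord.ToType, inferInstance, inferInstance, mk_ord_toType κ, mk_Iio_toType_ord_lt,
    fun S hS => bound_of_lt_cof S (h.cof_ord.symm ▸ hS)⟩

theorem exists_image_cover {W C : Type} [Nonempty C] (T : Set C) (V : Set W) :
    ∃ e : W → C, #T ≤ #V → T ⊆ e '' V := by
  classical
  by_cases h : #T ≤ #V
  · obtain ⟨f⟩ := (Cardinal.le_def _ _).1 h
    refine ⟨Function.extend (fun t : T => (f t : W)) Subtype.val (fun _ => Classical.arbitrary C),
      fun _ c hc => ⟨f ⟨c, hc⟩, (f ⟨c, hc⟩).2, ?_⟩⟩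
    exact (Subtype.val_injective.comp f.injective).extend_apply _ _ (⟨c, hc⟩ : T)
  · exact ⟨fun _ => Classical.arbitrary C, fun h' => (h h').elim⟩

theorem two_colour {X I : Type} [LinearOrder I] [WellFoundedLT I] (rk : X → I) (B : Set I)
    (p q : I → X) (hp : ∀ α ∈ B, rk (p α) = α) (hq : ∀ α ∈ B, rk (q α) ≤ α)
    (hne : ∀ α ∈ B, p α ≠ q α) : ∃ A : Set X, ∀ α ∈ B, ¬ (p α ∈ A ↔ q α ∈ A) := by
  let c : I → Prop := WellFoundedLT.fix fun α prev =>
    ¬ ∃ h : rk (q α) < α, rk (q α) ∈ B ∧ q α = p (rk (q α)) ∧ prev _ h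
  have hc : ∀ α, c α ↔
      ¬ ∃ _ : rk (q α) < α, rk (q α) ∈ B ∧ q α = p (rk (q α)) ∧ c (rk (q α)) := fun α => by
    simp only [c]
    rw [WellFoundedLT.fix_eq]
  refine ⟨{x | rk x ∈ B ∧ x = p (rk x) ∧ c (rk x)}, fun α hα => ?_⟩
  have h1 : p α ∈ {x | rk x ∈ B ∧ x = p (rk x) ∧ c (rk x)} ↔ c α := by
    simp only [mem_setOf_eq, hp α hα]
    exact ⟨fun h => h.2.2, fun h => ⟨hα, trivial, h⟩⟩
  have h2 : q α ∈ {x | rk x ∈ B ∧ x = p (rk x) ∧ c (rk x)} ↔ ¬ c α := by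
    rw [hc, not_not]
    refine ⟨fun h => ⟨lt_of_le_of_ne (hq α hα) fun he => ?_, h⟩, fun ⟨_, h⟩ => h⟩
    have := h.2.1
    rw [he] at this
    exact hne α hα this.symm
  rw [h1, h2]
  exact iff_not_self

variable {X : Type} [TopologicalSpace X] [CompactSpace X] [T2Space X]

theorem exists_factor {K : Set X} (hK : IsClosed K) {Θ : Set C(X, ℝ)} (hs : Sep Θ K)
    (h : C(X, ℝ)) : ∃ Θ' ⊆ Θ, Θ'.Countable ∧ ∀ x ∈ K, ∀ y ∈ K, Agree Θ' x y → h x = h y := by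
  have h1 : ∀ n : ℕ, ∃ Θ' ⊆ Θ, Θ'.Finite ∧ ∀ x ∈ K, ∀ y ∈ K, Agree Θ' x y →
      |h x - h y| < 1 / ((n : ℝ) + 1) := by
    intro n
    have hc : IsCompact ((K ×ˢ K) ∩ {p : X × X | 1 / ((n : ℝ) + 1) ≤ |h p.1 - h p.2|}) :=
      ((hK.prod hK).inter (isClosed_le continuous_const
        ((h.continuous.comp continuous_fst).sub (h.continuous.comp continuous_snd)).abs)).isCompact
    obtain ⟨Θ', h1, h2, h3⟩ := hc.elim_finite_subcover_image (b := Θ)
      (c := fun φ => {p : X × X | φ p.1 ≠ φ p.2}) (fun φ _ => isOpen_ne_fun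
        (φ.continuous.comp continuous_fst) (φ.continuous.comp continuous_snd)) (by
      rintro ⟨x, y⟩ ⟨⟨hx, hy⟩, hxy⟩
      by_contra hcon
      simp only [mem_iUnion, mem_setOf_eq, not_exists, not_not] at hcon
      have h4 : x = y := hs x hx y hy fun φ hφ => hcon φ hφ
      subst h4
      simp only [mem_setOf_eq, sub_self, abs_zero] at hxy
      have : (0 : ℝ) < 1 / ((n : ℝ) + 1) := by positivity
      linarith)
    refine ⟨Θ', h1, h2, fun x hx y hy hxy => ?_⟩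
    by_contra hcon
    obtain ⟨φ, hφ, h4⟩ := mem_iUnion₂.1 (h3 (a := (x, y)) ⟨⟨hx, hy⟩, not_lt.1 hcon⟩)
    exact h4 (hxy φ hφ)
  choose T hT hTf hTs using h1
  refine ⟨⋃ n, T n, iUnion_subset hT, countable_iUnion fun n => (hTf n).countable,
    fun x hx y hy hxy => ?_⟩
  by_contra hne
  obtain ⟨n, hn⟩ := exists_nat_one_div_lt (abs_pos.2 (sub_ne_zero.2 hne))
  exact lt_asymm hn (hTs n x hx y hy (hxy.mono (subset_iUnion T n)))

theorem tight_chain (hX : Split X) {τ : Set C(X, ℝ) → Set X} (hτ : FinOp τ) {Ω : Type}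
    [LinearOrder Ω] (hbd : Bd Ω) {Ψ : Ω → Set C(X, ℝ)} (hm : Monotone Ψ) {S : Set C(X, ℝ)}
    (hS : S ⊆ ⋃ ν, Ψ ν) {x : X} (hx : x ∈ closure (τ S)) : ∃ ν, x ∈ closure (τ (Ψ ν)) := by
  have := hbd.nonempty
  obtain ⟨B, hBc, hB, hxB⟩ := hX.tight hx
  have h1 : ∀ b ∈ B, ∃ ν ∈ (univ : Set Ω), b ∈ τ (Ψ ν) := fun b hb =>
    hτ.chain hm univ_nonempty (by simpa using hS) (hB hb)
  choose! f _ hf using h1
  obtain ⟨ν, hν⟩ := hbd (f '' B) (hBc.image f)
  exact ⟨ν, closure_mono (fun b hb => hτ.mono _ _ (hm (hν _ ⟨b, hb, rfl⟩).le) (hf b hb)) hxB⟩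

theorem Tau.mem_of_sep {K : Set X} {τ : Set C(X, ℝ) → Set X} (h : Tau K τ) {Θ : Set C(X, ℝ)}
    (hs : Sep Θ K) {x : X} (hx : x ∈ K) : x ∈ closure (τ Θ) := by
  obtain ⟨z, hz, hzx⟩ := h.approx Θ x hx
  exact hs z (h.closure_sub _ hz) x hx hzx ▸ hz

theorem exists_M (hX : Split X) {τ : Set C(X, ℝ) → Set X} (hτ : FinOp τ) :
    ∃ M : Set C(X, ℝ) → Set C(X, ℝ), ∀ Ψ, #(M Ψ) ≤ max #Ψ ℵ₀ ∧ Sep (M Ψ) (closure (τ Ψ)) := by
  choose M hM using fun Ψ : Set C(X, ℝ) => hX.mono (τ Ψ) (le_max_right #Ψ ℵ₀)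
    (hτ.card_le (le_max_right _ _) (le_max_left _ _))
  exact ⟨M, hM⟩

theorem win_regular (hX : Split X) {K : Set X} (hK : IsClosed K) {κ : Cardinal}
    (hreg : κ.IsRegular) (hκ : ℵ₀ < κ) {Ψ : Set C(X, ℝ)} (hΨ : #Ψ ≤ κ) (hs : Sep Ψ K)
    (IH : ∀ D : Set X, #D < κ → Win (closure D)) : Win K := by
  classical
  rcases K.eq_empty_or_nonempty with rfl | ⟨x0, hx0⟩
  · exact Win.of_subsingleton subsingleton_empty
  have : Nonempty X := ⟨x0⟩
  obtain ⟨τ, hτ⟩ := exists_Tau hK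
  obtain ⟨M, hM⟩ := exists_M hX hτ.fin
  obtain ⟨I, _, _, hI, hIio, hIb⟩ := exists_order hreg
  have hbd : Bd I := fun S hS => hIb S ((le_aleph0_iff_set_countable.2 hS).trans_lt hκ)
  have := hbd.nonempty
  obtain ⟨e, he⟩ := exists_image_cover Ψ (univ : Set I)
  have he' : Ψ ⊆ range e := by simpa using he (by simpa [hI] using hΨ)
  obtain ⟨m, hm⟩ := exists_rec (fun (β : I) (S : Set C(X, ℝ)) => insert (e β) (M S))
  let Φ : I → Set C(X, ℝ) := fun α => ⋃ β ∈ Iio α, m β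
  have hmΦ : ∀ β α, β < α → m β ⊆ Φ α := fun β α h => subset_biUnion_of_mem (u := m) h
  have hmono : Monotone Φ := fun a b hab => biUnion_subset_biUnion_left (Iio_subset_Iio hab)
  have hcont : ∀ δ, IsLim δ → Φ δ ⊆ ⋃ i ∈ Iio δ, Φ i := fun δ hδ φ hφ => by
    obtain ⟨β, hβ, hφ⟩ := mem_iUnion₂.1 hφ
    obtain ⟨j, h1, h2⟩ := hδ.2 β hβ
    exact mem_iUnion₂.2 ⟨j, h2, hmΦ β j h1 hφ⟩
  have hcard : ∀ α, #(Φ α) < κ := by
    intro α
    induction α using WellFoundedLT.induction with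
    | ind α ih =>
      refine (card_biUnion_lt_iff_forall_of_isRegular hreg (hIio α)).2 fun β hβ => ?_
      rw [hm]
      refine mk_insert_le.trans_lt (add_lt_of_lt hκ.le ((hM _).1.trans_lt
        (max_lt (ih β hβ) hκ)) (one_lt_aleph0.trans hκ))
  have hsepU : Sep (⋃ α, Φ α) K := fun x hx y hy hxy => hs x hx y hy (hxy.mono fun φ hφ => by
    obtain ⟨β, rfl⟩ := he' hφ
    obtain ⟨b, hb⟩ := hbd {β} (countable_singleton β)
    exact mem_iUnion.2 ⟨b, hmΦ β b (hb β rfl) (by rw [hm]; exact mem_insert _ _)⟩)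
  have hcov : ∀ x ∈ K, ∃ α, x ∈ closure (τ (Φ α)) := fun x hx =>
    tight_chain hX hτ.fin hbd hmono subset_rfl (hτ.mem_of_sep hsepU hx)
  have hrk : ∀ x ∈ K, ∃ α, x ∈ closure (τ (Φ α)) ∧ ∀ β, x ∈ closure (τ (Φ β)) → α ≤ β :=
    fun x hx => ⟨wellFounded_lt.min _ (hcov x hx), wellFounded_lt.min_mem _ (hcov x hx),
      fun β hβ => not_lt.1 (wellFounded_lt.not_lt_min {α | x ∈ closure (τ (Φ α))} hβ)⟩
  choose! rk hrk1 hrk2 using hrk
  let B : Set I := {α | ¬ Sep (Φ α) (closure (τ (Φ α)))}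
  have hB : ∀ α ∈ B, ∃ p ∈ closure (τ (Φ α)), ∃ q ∈ closure (τ (Φ α)),
      Agree (Φ α) p q ∧ p ≠ q ∧ rk p = α := by
    intro α hα
    simp only [B, Sep, mem_setOf_eq] at hα
    push Not at hα
    obtain ⟨p, hp, q, hq, h1, h2⟩ := hα
    have hpK := hτ.closure_sub _ hp
    have hqK := hτ.closure_sub _ hq
    rcases (hrk2 p hpK α hp).eq_or_lt with h3 | h3
    · exact ⟨p, hp, q, hq, h1, h2, h3⟩
    rcases (hrk2 q hqK α hq).eq_or_lt with h4 | h4
    · exact ⟨q, hq, p, hp, h1.symm, h2.symm, h4⟩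
    refine (h2 ((hM (Φ (max (rk p) (rk q)))).2 p ?_ q ?_ (h1.mono ?_))).elim
    · exact hτ.closure_mono (hmono (le_max_left _ _)) (hrk1 p hpK)
    · exact hτ.closure_mono (hmono (le_max_right _ _)) (hrk1 q hqK)
    · refine subset_trans ?_ (hmΦ _ _ (max_lt h3 h4))
      rw [hm]
      exact subset_insert _ _
  choose! p hp q hq hpq hne hrkp using hB
  obtain ⟨A, hA⟩ := two_colour rk B p q hrkp
    (fun α hα => hrk2 _ (hτ.closure_sub _ (hq α hα)) α (hq α hα)) hne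
  obtain ⟨Z, hZ, hZA⟩ := hX A
  obtain ⟨σ, hσ, hσs⟩ := hZ.exists_sigma
  choose Θ hΘ hΘc hΘs using exists_factor hK hsepU
  let G : Set C(X, ℝ) → Set C(X, ℝ) := fun S => ⋃ h ∈ σ (τ S), Θ h
  have hG : FinOp G := (FinOp.biUnion Θ hΘc).comp (hσ.comp hτ.fin)
  let C : Set I := {δ | G (Φ δ) ⊆ Φ δ}
  have hgood : ∀ δ ∈ C, Sep (Φ δ) (closure (τ (Φ δ))) := by
    intro δ hδ
    by_contra hc
    have h1 : Agree Z (p δ) (q δ) := hσs _ _ (hp δ hc) _ (hq δ hc) fun h hh =>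
      hΘs h _ (hτ.closure_sub _ (hp δ hc)) _ (hτ.closure_sub _ (hq δ hc))
        ((hpq δ hc).mono ((subset_biUnion_of_mem (u := Θ) hh).trans hδ))
    exact hA δ hc ⟨hZA _ _ h1, hZA _ _ h1.symm⟩
  have hunb : ∀ a, ∃ δ ∈ C, a < δ := by
    intro a
    obtain ⟨δ, ha, hlim, hδ⟩ := hbd.club (fun i j => G (Φ i) ⊆ Φ j) (fun i => by
        have h1 : ∀ φ ∈ G (Φ i), ∃ j, φ ∈ Φ j := fun φ hφ => by
          obtain ⟨h, -, hφ⟩ := mem_iUnion₂.1 hφ
          exact mem_iUnion.1 (hΘ h hφ)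
        choose! f hf using h1
        obtain ⟨b, hb⟩ := hIb (f '' G (Φ i)) (mk_image_le.trans_lt
          ((hG.card_le (le_max_right _ _) (le_max_left _ _)).trans_lt (max_lt (hcard i) hκ)))
        exact ⟨b, fun φ hφ => hmono (hb _ ⟨φ, hφ, rfl⟩).le (hf φ hφ)⟩)
      (fun i i' j j' hi hj hR => (hG.mono _ _ (hmono hi)).trans (hR.trans (hmono hj))) a
    refine ⟨δ, fun b hb => ?_, ha⟩
    obtain ⟨i, hi, hbi⟩ := hG.chain hmono hlim.1 (hcont δ hlim) hb
    obtain ⟨j, hj, hR⟩ := hδ i hi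
    exact hmono hj.le (hR hbi)
  have hbdC : ∀ S : Set C, #S < κ → ∃ b, ∀ i ∈ S, i < b := fun S hS => by
    obtain ⟨b, hb⟩ := hIb (Subtype.val '' S) (mk_image_le.trans_lt hS)
    obtain ⟨δ, hδ, hbδ⟩ := hunb b
    exact ⟨⟨δ, hδ⟩, fun i hi => (hb _ ⟨i, hi, rfl⟩).trans hbδ⟩
  have hbdC' : Bd C := fun S hS => hbdC S ((le_aleph0_iff_set_countable.2 hS).trans_lt hκ)
  obtain ⟨nxt, hnxt⟩ := hbdC'.exists_nxt
  have hch : Chain K τ (fun i : C => Φ i) nxt := by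
    refine ⟨hX, hτ, hbdC', hnxt, fun i j hij => hmono hij, fun δ hδ => ?_,
      fun i => hgood i i.2, fun x hx => ?_⟩
    · let T : Set I := {i | i ∈ C ∧ i < δ}
      have hTne : T.Nonempty := by
        obtain ⟨i, hi⟩ := hδ.1
        exact ⟨i, i.2, hi⟩
      have hTm : ∀ i ∈ T, ∃ j ∈ T, i < j := fun i hi => by
        obtain ⟨j, h1, h2⟩ := hδ.2 ⟨i, hi.1⟩ hi.2
        exact ⟨j, ⟨j.2, h2⟩, h1⟩
      have hne : {b | ∀ i ∈ T, i ≤ b}.Nonempty := ⟨δ, fun i hi => hi.2.le⟩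
      let β := wellFounded_lt.min _ hne
      have hβ : ∀ i ∈ T, i ≤ β := wellFounded_lt.min_mem _ hne
      have hβ' : ∀ i ∈ T, i < β := fun i hi => by
        obtain ⟨j, hj, hij⟩ := hTm i hi
        exact hij.trans_le (hβ j hj)
      have hβ2 : ∀ i < β, ∃ j ∈ T, i < j := fun i hi => by
        by_contra hc
        push Not at hc
        exact wellFounded_lt.not_lt_min {b | ∀ i ∈ T, i ≤ b} hc hi
      have hlim : IsLim β := ⟨hTne.imp hβ', fun i hi => by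
        obtain ⟨j, hj, hij⟩ := hβ2 i hi
        exact ⟨j, hij, hβ' j hj⟩⟩
      have h1 : Φ β ⊆ ⋃ j ∈ T, Φ j := (hcont β hlim).trans (iUnion₂_subset fun i hi => by
        obtain ⟨j, hj, hij⟩ := hβ2 i hi
        exact (hmono hij.le).trans (subset_biUnion_of_mem (u := Φ) hj))
      have h2 : β ∈ C := fun b hb => by
        obtain ⟨j, hj, hb⟩ := hG.chain hmono hTne h1 hb
        exact hmono (hβ j hj) (hj.1 hb)
      have h3 : (δ : I) ≤ β := by
        by_contra hc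
        exact lt_irrefl _ (hβ' β ⟨h2, not_le.1 hc⟩)
      intro φ hφ
      obtain ⟨j, hj, hφ⟩ := mem_iUnion₂.1 (h1 (hmono h3 hφ))
      exact mem_iUnion₂.2 ⟨⟨j, hj.1⟩, hj.2, hφ⟩
    · obtain ⟨α, hα⟩ := hcov x hx
      obtain ⟨δ, hδ, hαδ⟩ := hunb α
      exact ⟨⟨δ, hδ⟩, hτ.closure_mono (hmono hαδ.le) hα⟩
  refine hch.win_reg (fun i => IH _ ?_) fun i S hS => ?_
  · exact (hτ.fin.card_le (le_max_right _ _) (le_max_left _ _)).trans_lt (max_lt (hcard i) hκ)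
  · obtain ⟨b, hb⟩ := hbdC S (hS.trans_lt (max_lt (hcard i) hκ))
    exact ⟨b, fun j hj => (hb j hj).le⟩

end Pool.Agent.MP_353077_gt

end

section

open Set Filter Topology Cardinal

namespace Pool.Agent.MP_353077_gt

variable {X : Type} [TopologicalSpace X] [CompactSpace X] [T2Space X]

theorem win_singular (hX : Split X) {K : Set X} (hK : IsClosed K) {κ : Cardinal}
    (hsing : κ.IsSingular) {Ψ : Set C(X, ℝ)} (hΨ : #Ψ ≤ κ) (hs : Sep Ψ K)
    (IH : ∀ D : Set X, #D < κ → Win (closure D)) : Win K := by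
  classical
  rcases K.eq_empty_or_nonempty with rfl | ⟨x0, hx0⟩
  · exact Win.of_subsingleton subsingleton_empty
  have : Nonempty X := ⟨x0⟩
  have hκ0 : ℵ₀ ≤ κ := hsing.aleph0_le
  have hκ : ℵ₀ < κ := lt_of_le_of_ne hκ0 fun h => not_isSingular_aleph0 (h ▸ hsing)
  have hκ1 : ℵ₁ < κ := by
    refine lt_of_le_of_ne ?_ fun h => not_isSingular_aleph_one (h ▸ hsing)
    by_contra hc
    exact absurd (lt_aleph_one_iff.1 (not_le.1 hc)) (not_le.2 hκ)
  obtain ⟨τ, hτ⟩ := exists_Tau hK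
  obtain ⟨M, hM⟩ := exists_M hX hτ.fin
  let W := κ.ord.ToType
  have hW : #W = κ := mk_ord_toType κ
  have : NoMaxOrder W := Cardinal.noMaxOrder hκ0
  have hlam : κ.ord.cof.IsRegular := isRegular_cof (isSuccLimit_ord hκ0)
  have hlt : κ.ord.cof < κ := hsing.cof_ord_lt
  obtain ⟨I, _, _, hI, hIio, hIb⟩ := exists_order hlam
  obtain ⟨Ω, _, _, hΩ, -, hΩb⟩ := exists_order isRegular_aleph_one
  have hΩbd : Bd Ω := fun S hS => hΩb S ((countable_iff_lt_aleph_one S).1 hS)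
  have hInext : ∀ i : I, ∃ b, i < b := fun i => by
    obtain ⟨b, hb⟩ := hIb {i} (by simpa using one_lt_aleph0.trans_le hlam.aleph0_le)
    exact ⟨b, hb i rfl⟩
  -- cofinal map
  obtain ⟨c, hc⟩ : ∃ c : I → W, ∀ w, ∃ j, w < c j := by
    obtain ⟨T, hT, hTc⟩ := Order.exists_cof_eq W
    have : Nonempty W := mk_ne_zero_iff.1 (hW ▸ hsing.pos.ne')
    obtain ⟨c, hc⟩ := exists_image_cover T (univ : Set I)
    have hc' := hc (by rw [hTc, Ordinal.cof_toType, mk_univ, hI])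
    refine ⟨c, fun w => ?_⟩
    obtain ⟨w', hw'⟩ := exists_gt w
    obtain ⟨t, ht, hwt⟩ := hT w'
    obtain ⟨j, -, rfl⟩ := hc' ht
    exact ⟨j, hw'.trans_le hwt⟩
  let μ : Cardinal := max κ.ord.cof ℵ₁
  have hμ : μ < κ := max_lt hlt hκ1
  have hμ0 : ℵ₀ ≤ μ := (aleph0_le_aleph 1).trans (le_max_right _ _)
  obtain ⟨Wb, hWb⟩ : ∃ p : Set W, #p = μ := le_mk_iff_exists_set.1 (hW ▸ hμ.le)
  let V : I → Set W := fun i => Wb ∪ ⋃ j ∈ Iio i, Iio (c j)
  have hVmono : Monotone V := fun a b hab =>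
    union_subset_union_right _ (biUnion_subset_biUnion_left (Iio_subset_Iio hab))
  have hVμ : ∀ i, μ ≤ #(V i) := fun i => hWb ▸ mk_le_mk_of_subset subset_union_left
  have hVκ : ∀ i, #(V i) < κ := fun i => by
    obtain ⟨b, hb⟩ := bound_of_lt_cof (c '' Iio i) (mk_image_le.trans_lt (hIio i))
    have h1 : V i ⊆ Wb ∪ Iio b := union_subset_union_right _
      (iUnion₂_subset fun j hj => Iio_subset_Iio (hb _ ⟨j, hj, rfl⟩).le)
    exact ((mk_le_mk_of_subset h1).trans (mk_union_le _ _)).trans_lt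
      (add_lt_of_lt hκ0 (hWb ▸ hμ) (mk_Iio_toType_ord_lt b))
  have hVcont : ∀ δ, IsLim δ → V δ ⊆ ⋃ i ∈ Iio δ, V i := fun δ hδ w hw => by
    rcases hw with hw | hw
    · obtain ⟨i, hi⟩ := hδ.1
      exact mem_iUnion₂.2 ⟨i, hi, Or.inl hw⟩
    · obtain ⟨j, hj, hw⟩ := mem_iUnion₂.1 hw
      obtain ⟨i, h1, h2⟩ := hδ.2 j hj
      exact mem_iUnion₂.2 ⟨i, h2, Or.inr (mem_iUnion₂.2 ⟨j, h1, hw⟩)⟩
  have hVall : ∀ w, ∃ i, w ∈ V i := fun w => by
    obtain ⟨j, hj⟩ := hc w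
    obtain ⟨i, hi⟩ := hInext j
    exact ⟨i, Or.inr (mem_iUnion₂.2 ⟨j, hi, hj⟩)⟩
  obtain ⟨e0, he0⟩ := exists_image_cover Ψ (univ : Set W)
  have he0' : Ψ ⊆ range e0 := by simpa using he0 (by simpa [hW] using hΨ)
  let P : Set (W → C(X, ℝ)) → I → Set C(X, ℝ) := fun E i => ⋃ e ∈ E, e '' V i
  have hPmono : ∀ E E' i, E ⊆ E' → P E i ⊆ P E' i := fun E E' i h =>
    biUnion_subset_biUnion_left h
  have hPcard : ∀ E : Set (W → C(X, ℝ)), #E ≤ μ → ∀ i, #(P E i) ≤ #(V i) := fun E hE i => by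
    refine (mk_biUnion_le _ _).trans ((mul_le_mul' (hE.trans (hVμ i))
      (ciSup_le' fun e => mk_image_le)).trans (mul_eq_self (hμ0.trans (hVμ i))).le)
  choose en hen using fun (E : Set (W → C(X, ℝ))) (i : I) => exists_image_cover (M (P E i)) (V i)
  obtain ⟨m, hm⟩ := exists_rec (fun (_ : Ω) (E : Set (W → C(X, ℝ))) => insert e0 (range (en E)))
  have hmc : ∀ ν, #(m ν) ≤ μ := fun ν => by
    rw [hm]
    refine mk_insert_le.trans (add_le_of_le hμ0 (mk_range_le.trans ?_) (one_le_aleph0.trans hμ0))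
    rw [hI]; exact le_max_left _ _
  let Ea : Set (W → C(X, ℝ)) := ⋃ ν, m ν
  have hEa : #Ea ≤ μ := (mk_iUnion_le _).trans ((mul_le_mul' (hΩ ▸ le_max_right _ _)
    (ciSup_le' hmc)).trans (mul_eq_self hμ0).le)
  let E : Ω → Set (W → C(X, ℝ)) := fun ν => ⋃ ξ ∈ Iio ν, m ξ
  have hEsub : ∀ ν, E ν ⊆ Ea := fun ν => iUnion₂_subset fun ξ _ => subset_iUnion m ξ
  let Φ : I → Set C(X, ℝ) := P Ea
  have hmono : Monotone Φ := fun a b hab =>
    iUnion₂_mono fun e _ => image_mono (hVmono hab)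
  have hcont : ∀ δ, IsLim δ → Φ δ ⊆ ⋃ i ∈ Iio δ, Φ i := fun δ hδ φ hφ => by
    obtain ⟨e, he, w, hw, rfl⟩ := mem_iUnion₂.1 hφ
    obtain ⟨i, hi, hw⟩ := mem_iUnion₂.1 (hVcont δ hδ hw)
    exact mem_iUnion₂.2 ⟨i, hi, mem_iUnion₂.2 ⟨e, he, w, hw, rfl⟩⟩
  have hgood : ∀ i, Sep (Φ i) (closure (τ (Φ i))) := by
    intro i x hx y hy hxy
    have h1 : Monotone fun ν => P (E ν) i := fun a b hab =>
      hPmono _ _ i (biUnion_subset_biUnion_left (Iio_subset_Iio hab))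
    have h2 : Φ i ⊆ ⋃ ν, P (E ν) i := fun φ hφ => by
      obtain ⟨e, he, hφ⟩ := mem_iUnion₂.1 hφ
      obtain ⟨ξ, hξ⟩ := mem_iUnion.1 he
      obtain ⟨b, hb⟩ := hΩbd {ξ} (countable_singleton ξ)
      exact mem_iUnion.2 ⟨b, mem_iUnion₂.2 ⟨e, mem_iUnion₂.2 ⟨ξ, hb ξ rfl, hξ⟩, hφ⟩⟩
    obtain ⟨ν1, h3⟩ := tight_chain hX hτ.fin hΩbd h1 h2 hx
    obtain ⟨ν2, h4⟩ := tight_chain hX hτ.fin hΩbd h1 h2 hy
    refine (hM (P (E (max ν1 ν2)) i)).2 x (hτ.closure_mono (h1 (le_max_left _ _)) h3) y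
      (hτ.closure_mono (h1 (le_max_right _ _)) h4) (hxy.mono ?_)
    refine (hen _ i ((hM _).1.trans (max_le (hPcard _
      ((mk_le_mk_of_subset (hEsub _)).trans hEa) i) (hμ0.trans (hVμ i))))).trans ?_
    refine subset_biUnion_of_mem (u := fun e : W → C(X, ℝ) => e '' V i) ?_
    refine mem_iUnion.2 ⟨max ν1 ν2, ?_⟩
    rw [hm]
    exact Or.inr ⟨i, rfl⟩
  have hsepU : Sep (⋃ i, Φ i) K := fun x hx y hy hxy => hs x hx y hy (hxy.mono fun φ hφ => by
    obtain ⟨w, rfl⟩ := he0' hφ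
    obtain ⟨i, hi⟩ := hVall w
    obtain ⟨ν⟩ := hΩbd.nonempty
    refine mem_iUnion.2 ⟨i, mem_iUnion₂.2 ⟨e0, mem_iUnion.2 ⟨ν, ?_⟩, w, hi, rfl⟩⟩
    rw [hm]
    exact mem_insert _ _)
  have hw : ∀ i, Win (closure (τ (Φ i))) := fun i => IH _
    ((hτ.fin.card_le (hμ0.trans (hVμ i)) (hPcard Ea hEa i)).trans_lt (hVκ i))
  rcases hlam.aleph0_le.eq_or_lt with h0 | h0
  · have : Countable I := mk_le_aleph0_iff.1 (by rw [hI, ← h0])
    exact hτ.win_countable Φ hgood hw hsepU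
  · have hbd : Bd I := fun S hS => hIb S ((le_aleph0_iff_set_countable.2 hS).trans_lt h0)
    obtain ⟨nxt, hnxt⟩ := hbd.exists_nxt
    have hch : Chain K τ Φ nxt := ⟨hX, hτ, hbd, hnxt, hmono, hcont, hgood, fun x hx =>
      tight_chain hX hτ.fin hbd hmono subset_rfl (hτ.mem_of_sep hsepU hx)⟩
    exact hch.win_sing hw fun y _ => IH _ (mk_range_le.trans_lt (hI ▸ hlt))

theorem win_all (hX : Split X) (κ : Cardinal) : ∀ {K : Set X}, IsClosed K →
    ∀ {Ψ : Set C(X, ℝ)}, #Ψ ≤ κ → Sep Ψ K → Win K := by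
  induction κ using WellFoundedLT.induction with
  | ind κ ih =>
    intro K hK Ψ hΨ hs
    rcases le_or_gt κ ℵ₀ with h0 | h0
    · exact Win.of_countable (le_aleph0_iff_set_countable.1 (hΨ.trans h0)) hs
    have IH : ∀ D : Set X, #D < κ → Win (closure D) := fun D hD => by
      obtain ⟨Φ, h1, h2⟩ := hX.mono D (le_max_right #D ℵ₀) (le_max_left _ _)
      exact ih _ (max_lt hD h0) isClosed_closure h1 h2
    rcases isRegular_or_isSingular h0.le with h | h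
    · exact win_regular hX hK h h0 hΨ hs IH
    · exact win_singular hX hK h hΨ hs IH

theorem exists_sep_fun {x y : X} (h : x ≠ y) : ∃ f : C(X, ℝ), f x ≠ f y := by
  obtain ⟨f, h1, h2, -⟩ := exists_continuous_zero_one_of_isClosed (isClosed_singleton (x := x))
    (isClosed_singleton (x := y)) (disjoint_singleton.2 h)
  exact ⟨f, by rw [h1 rfl, h2 rfl]; simp⟩

theorem Split.exists_LS (hX : Split X) : ∃ Z : Set C(X, ℝ), LS Z ∧ Sep Z univ := by
  refine (win_all hX _ isClosed_univ (Ψ := univ) le_rfl fun x _ y _ h => ?_).exists_LS hX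
    isClosed_univ
  by_contra hne
  obtain ⟨f, hf⟩ := exists_sep_fun hne
  exact hf (h f trivial)

end Pool.Agent.MP_353077_gt

end

section

open Set Filter Topology Cardinal

namespace Pool.Agent.MP_353077_gt

variable {X : Type} [TopologicalSpace X]

theorem LS.comp {Y : Type} [TopologicalSpace Y] {Z : Set C(Y, ℝ)} (hZ : LS Z) (f : C(X, Y)) :
    LS ((fun g : C(Y, ℝ) => g.comp f) '' Z) := by
  have h1 : Continuous fun g : Y → ℝ => g ∘ f :=
    continuous_pi fun x => continuous_apply (f x)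
  have := UL.image hZ h1
  unfold LS
  rw [image_image] at this ⊢
  exact this

theorem LS.add {A : Set C(X, ℝ)} (hA : LS A) : LS (image2 (· + ·) A A) := by
  have := (UL.prod hA hA).image (continuous_add (M := X → ℝ))
  unfold LS
  convert this using 1
  ext g
  constructor
  · rintro ⟨_, ⟨a, ha, b, hb, rfl⟩, rfl⟩
    exact ⟨(a, b), ⟨⟨a, ha, rfl⟩, b, hb, rfl⟩, rfl⟩
  · rintro ⟨⟨_, _⟩, ⟨⟨a, ha, rfl⟩, b, hb, rfl⟩, rfl⟩
    exact ⟨a + b, ⟨a, ha, b, hb, rfl⟩, rfl⟩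

theorem LS.mul {A : Set C(X, ℝ)} (hA : LS A) : LS (image2 (· * ·) A A) := by
  have := (UL.prod hA hA).image (continuous_mul (M := X → ℝ))
  unfold LS
  convert this using 1
  ext g
  constructor
  · rintro ⟨_, ⟨a, ha, b, hb, rfl⟩, rfl⟩
    exact ⟨(a, b), ⟨⟨a, ha, rfl⟩, b, hb, rfl⟩, rfl⟩
  · rintro ⟨⟨_, _⟩, ⟨⟨a, ha, rfl⟩, b, hb, rfl⟩, rfl⟩
    exact ⟨a * b, ⟨a, ha, b, hb, rfl⟩, rfl⟩

theorem LS.const : LS (range fun r : ℝ => (ContinuousMap.const X r)) := by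
  have h1 : Continuous fun r : ℝ => (fun _ : X => r) := continuous_pi fun _ => continuous_id
  have := UL.real.image h1
  unfold LS
  rw [← range_comp]
  rw [image_univ] at this
  exact this

theorem LS.all [CompactSpace X] {Z : Set C(X, ℝ)} (hZ : LS Z) (hs : Sep Z univ) :
    UL {g : X → ℝ | Continuous g} := by
  let step : Set C(X, ℝ) → Set C(X, ℝ) := fun A =>
    A ∪ (image2 (· + ·) A A ∪ image2 (· * ·) A A)
  let A : ℕ → Set C(X, ℝ) := fun n => step^[n] (Z ∪ range fun r : ℝ => (ContinuousMap.const X r))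
  have hA : ∀ n, A (n + 1) = step (A n) := fun n => Function.iterate_succ_apply' step n _
  have hLS : ∀ n, LS (A n) := by
    intro n
    induction n with
    | zero => exact hZ.union LS.const
    | succ n ih => rw [hA]; exact ih.union (ih.add.union ih.mul)
  have hmono : Monotone A := monotone_nat_of_le_succ fun n => by
    rw [hA]; exact subset_union_left
  let S : Subalgebra ℝ C(X, ℝ) :=
    { carrier := ⋃ n, A n
      mul_mem' := by
        intro a b ha hb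
        obtain ⟨n, hn⟩ := mem_iUnion.1 ha
        obtain ⟨m, hm⟩ := mem_iUnion.1 hb
        refine mem_iUnion.2 ⟨max n m + 1, ?_⟩
        rw [hA]
        exact Or.inr (Or.inr ⟨a, hmono (le_max_left _ _) hn, b, hmono (le_max_right _ _) hm, rfl⟩)
      add_mem' := by
        intro a b ha hb
        obtain ⟨n, hn⟩ := mem_iUnion.1 ha
        obtain ⟨m, hm⟩ := mem_iUnion.1 hb
        refine mem_iUnion.2 ⟨max n m + 1, ?_⟩
        rw [hA]
        exact Or.inr (Or.inl ⟨a, hmono (le_max_left _ _) hn, b, hmono (le_max_right _ _) hm, rfl⟩)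
      algebraMap_mem' := fun r => mem_iUnion.2 ⟨0, Or.inr ⟨r, rfl⟩⟩ }
  have hS : S.SeparatesPoints := by
    intro x y hxy
    by_contra hc
    refine hxy (hs x trivial y trivial fun φ hφ => ?_)
    by_contra hne
    exact hc ⟨φ, ⟨φ, mem_iUnion.2 ⟨0, Or.inl hφ⟩, rfl⟩, hne⟩
  have h1 := UL.unif (LS.iUnion hLS)
  convert h1 using 1
  ext g
  constructor
  · intro hg n
    obtain ⟨a, ha⟩ := ContinuousMap.exists_mem_subalgebra_near_continuous_of_separatesPoints S hS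
      g hg (1 / ((n : ℝ) + 1)) (by positivity)
    exact ⟨a.1, ⟨a.1, a.2, rfl⟩, fun p => (ha p).le⟩
  · intro hg
    choose a ha hag using hg
    refine TendstoUniformly.continuous (F := a) (p := atTop) ?_ ?_
    · rw [Metric.tendstoUniformly_iff]
      intro ε hε
      obtain ⟨N, hN⟩ := exists_nat_one_div_lt hε
      filter_upwards [eventually_ge_atTop N] with n hn p
      rw [Real.dist_eq, abs_sub_comm]
      refine (hag n p).trans_lt (lt_of_le_of_lt ?_ hN)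
      exact Nat.one_div_le_one_div hn
    · refine Frequently.of_forall fun n => ?_
      obtain ⟨b, -, hb⟩ := ha n
      exact hb ▸ b.continuous

theorem UL.subtype {E : Type} [TopologicalSpace E] {p : E → Prop} (h : UL {x | p x}) :
    UL (univ : Set (Subtype p)) := by
  obtain ⟨ι, hι, N, hN⟩ := h
  refine ⟨ι, hι, fun i => Subtype.val ⁻¹' N i, fun g _ U hU => ?_⟩
  obtain ⟨z, hz, hlim⟩ := hN g.1 g.2 (U.map Subtype.val) hU
  refine ⟨⟨z, hz⟩, trivial, ?_⟩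
  rw [nhds_subtype_eq_comap]
  exact map_le_iff_le_comap.1 hlim

/-- the Lindelof Sigma property of the function space -/
def Gul (Y : Type) [TopologicalSpace Y] : Prop :=
  ∃ N : ℕ → Set {g : Y → ℝ // Continuous g},
    ∀ g : {g : Y → ℝ // Continuous g}, ∃ C : Set {g : Y → ℝ // Continuous g},
      IsCompact C ∧ g ∈ C ∧
      ∀ U : Set {g : Y → ℝ // Continuous g}, IsOpen U → C ⊆ U → ∃ n : ℕ, C ⊆ N n ∧ N n ⊆ U

theorem Gul.ls {Y : Type} [TopologicalSpace Y] (h : Gul Y) : LS (univ : Set C(Y, ℝ)) := by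
  obtain ⟨N, hN⟩ := h
  have := (UL.of_network N hN).image continuous_subtype_val
  unfold LS
  convert this using 1
  ext g
  constructor
  · rintro ⟨f, -, rfl⟩
    exact ⟨⟨f, f.continuous⟩, trivial, rfl⟩
  · rintro ⟨f, -, rfl⟩
    exact ⟨⟨f.1, f.2⟩, trivial, rfl⟩

theorem gul_of_sep [CompactSpace X] {Z : Set C(X, ℝ)} (hZ : LS Z) (hs : Sep Z univ) : Gul X :=
  (hZ.all hs).subtype.to_network

theorem split_of_hyp (h : ∀ A : Set X, ∃ (Y : Type) (_ : TopologicalSpace Y), CompactSpace Y ∧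
    T2Space Y ∧ Gul Y ∧ ∃ f : X → Y, Continuous f ∧ f ⁻¹' (f '' A) = A) : Split X := by
  intro A
  obtain ⟨Y, _, _, _, hY, f, hf, hA⟩ := h A
  refine ⟨_, hY.ls.comp ⟨f, hf⟩, fun x y hxy hx => ?_⟩
  have h1 : f x = f y := by
    by_contra hne
    obtain ⟨g, hg⟩ := exists_sep_fun hne
    exact hg (hxy _ ⟨g, trivial, rfl⟩)
  rw [← hA]
  exact ⟨x, hx, h1⟩

/-- a compact space splittable over Gulko compacta is Gulko compact -/
theorem gul_of_split [CompactSpace X] [T2Space X]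
    (h : ∀ A : Set X, ∃ (Y : Type) (_ : TopologicalSpace Y), CompactSpace Y ∧
      T2Space Y ∧ Gul Y ∧ ∃ f : X → Y, Continuous f ∧ f ⁻¹' (f '' A) = A) : Gul X := by
  obtain ⟨Z, hZ, hs⟩ := (split_of_hyp h).exists_LS
  exact gul_of_sep hZ hs

theorem gul_sq_of_split [CompactSpace X] [T2Space X]
    (h : ∀ A : Set X, ∃ (Y : Type) (_ : TopologicalSpace Y), CompactSpace Y ∧
      T2Space Y ∧ Gul Y ∧ ∃ f : X → Y, Continuous f ∧ f ⁻¹' (f '' A) = A) : Gul (X × X) := by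
  obtain ⟨Z, hZ, hs⟩ := (split_of_hyp h).exists_LS
  refine gul_of_sep ((hZ.comp ContinuousMap.fst).union (hZ.comp ContinuousMap.snd))
    fun p _ q _ hpq => Prod.ext (hs _ trivial _ trivial fun φ hφ => ?_)
      (hs _ trivial _ trivial fun φ hφ => ?_)
  · exact hpq _ (Or.inl ⟨φ, hφ, rfl⟩)
  · exact hpq _ (Or.inr ⟨φ, hφ, rfl⟩)

end Pool.Agent.MP_353077_gt

end
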